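import Mathlib

/-!
MP_de2e60_co: bisecting measures in the plane by a polygonal path with at most `n` turns. Definitions.
-/

set_option autoImplicit false

namespace MPde2e60

open MeasureTheory

/-- The plane. -/
abbrev Pt := ℝ × ℝ

/-- The closed ray that starts at `v` and has direction `d`. -/
def ray (v d : Pt) : Set Pt := {x | ∃ t : ℝ, 0 ≤ t ∧ x = v + t • d}

/-- The straight line through `p` with direction `d`. -/
def line (p d : Pt) : Set Pt := {x | ∃ t : ℝ, x = p + t • d}

/-- Determinant of two vectors. -/
def cross (a b : Pt) : ℝ := a.1 * b.2 - a.2 * b.1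

/-- Piece number `i` (`0 ≤ i ≤ k`) of the polygonal path with the `k` turns `v 1, …, v k`:
piece `0` is the ray from `v 1` in direction `d`, piece `k` is the ray from `v k` in direction `e`, and
piece `i` is the segment from `v i` to `v (i + 1)` otherwise.  With `k = 0` turns the path is the line
through `v 0` in direction `d`. -/
def piece (k : ℕ) (v : ℕ → Pt) (d e : Pt) (i : ℕ) : Set Pt :=
  if k = 0 then line (v 0) d
  else if i = 0 then ray (v 1) d
  else if i = k then ray (v k) e
  else segment ℝ (v i) (v (i + 1))

/-- A direction vector of piece number `i`. -/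
def pieceDir (k : ℕ) (v : ℕ → Pt) (d e : Pt) (i : ℕ) : Pt :=
  if k = 0 then d
  else if i = 0 then d
  else if i = k then e
  else v (i + 1) - v i

/-- The polygonal path as a point set: the union of its `k + 1` pieces. -/
def path (k : ℕ) (v : ℕ → Pt) (d e : Pt) : Set Pt := {x | ∃ i ≤ k, x ∈ piece k v d e i}

/-- `c` colours the regions of the complement of the path: it is constant on every connected subset of
the complement, and its values on the two sides of a piece are different at every point of the path
which lies on one piece only. -/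
structure IsColouring (k : ℕ) (v : ℕ → Pt) (d e : Pt) (c : Pt → Bool) : Prop where
  const : ∀ S : Set Pt, IsPreconnected S → (∀ x ∈ S, x ∉ path k v d e) → ∀ x ∈ S, ∀ y ∈ S, c x = c y
  flip : ∀ i ≤ k, ∀ x ∈ piece k v d e i, (∀ j ≤ k, j ≠ i → x ∉ piece k v d e j) →
    ∀ N : Pt, cross (pieceDir k v d e i) N ≠ 0 →
      ∃ ε > 0, ∀ t : ℝ, 0 < t → t < ε → c (x + t • N) ≠ c (x - t • N)

/-- The path `L` with the colouring `c` splits `μ` by half: each colour class has half of the measure. -/
def SplitsByHalf (L : Set Pt) (c : Pt → Bool) (μ : Measure Pt) : Prop :=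
  ∀ b : Bool, μ {x | x ∉ L ∧ c x = b} = μ Set.univ / 2

/-- For every `m` finite measures on the plane which are absolutely continuous with respect to Lebesgue
measure there is a polygonal path with at most `n` turns that splits each of them by half. -/
def AlwaysSplit (n m : ℕ) : Prop :=
  ∀ μ : Fin m → Measure Pt, (∀ i, IsFiniteMeasure (μ i)) → (∀ i, μ i ≪ volume) →
    ∃ k ≤ n, ∃ (v : ℕ → Pt) (d e : Pt), d ≠ 0 ∧ e ≠ 0 ∧
      ∃ c : Pt → Bool, IsColouring k v d e c ∧ ∀ i, SplitsByHalf (path k v d e) c (μ i)

end MPde2e60
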