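import Pool.Agent.Lib.MP_de2e60_co.Defs

set_option autoImplicit false

namespace MPde2e60

open MeasureTheory

/-- the weight -/
noncomputable def g (x : Pt) : ℝ := Real.exp (-1 * x.1 ^ 2) * Real.exp (-1 * x.2 ^ 2)

lemma g_pos (x : Pt) : 0 < g x := by unfold g; positivity

lemma g_neg (x : Pt) : g (-x) = g x := by simp [g]

lemma integrable_g : Integrable g (volume : Measure Pt) := by
  have h := (integrable_exp_neg_mul_sq (b := 1) one_pos).mul_prod (integrable_exp_neg_mul_sq (b := 1) one_pos)
  exact h

lemma integrable_one : Integrable (fun x : ℝ => x * Real.exp (-1 * x ^ 2)) :=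
  integrable_mul_exp_neg_mul_sq (b := 1) one_pos

lemma integrable_xg : Integrable (fun x : Pt => x.1 * g x) (volume : Measure Pt) := by
  have h := integrable_one.mul_prod (integrable_exp_neg_mul_sq (b := 1) one_pos)
  refine h.congr (Filter.Eventually.of_forall fun x => ?_)
  simp only [g]; ring

lemma integrable_yg : Integrable (fun x : Pt => x.2 * g x) (volume : Measure Pt) := by
  have h := (integrable_exp_neg_mul_sq (b := 1) one_pos).mul_prod integrable_one
  refine h.congr (Filter.Eventually.of_forall fun x => ?_)
  simp only [g]; ring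

lemma integrable_axg : Integrable (fun x : Pt => |x.1| * g x) (volume : Measure Pt) := by
  refine integrable_xg.norm.congr (Filter.Eventually.of_forall fun x => ?_)
  simp only [Real.norm_eq_abs, abs_mul, abs_of_pos (g_pos x)]

lemma integrable_ayg : Integrable (fun x : Pt => |x.2| * g x) (volume : Measure Pt) := by
  refine integrable_yg.norm.congr (Filter.Eventually.of_forall fun x => ?_)
  simp only [Real.norm_eq_abs, abs_mul, abs_of_pos (g_pos x)]

/-- the three densities -/
noncomputable def ρ (i : Fin 3) (x : Pt) : ℝ :=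
  (1 + |x.1| + |x.2|) * g x + (if i = 1 then x.1 * g x else if i = 2 then x.2 * g x else 0)

lemma ρ_pos (i : Fin 3) (x : Pt) : 0 < ρ i x := by
  have hg := g_pos x
  have h1 := neg_abs_le x.1
  have h2 := neg_abs_le x.2
  have h3 := abs_nonneg x.1
  have h4 := abs_nonneg x.2
  unfold ρ
  split_ifs
  · nlinarith [mul_pos one_pos hg, mul_nonneg h4 hg.le, mul_nonneg (by linarith : 0 ≤ |x.1| + x.1) hg.le]
  · nlinarith [mul_pos one_pos hg, mul_nonneg h3 hg.le, mul_nonneg (by linarith : 0 ≤ |x.2| + x.2) hg.le]
  · have : 0 < (1 + |x.1| + |x.2|) * g x := by positivity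
    linarith

lemma integrable_base : Integrable (fun x : Pt => (1 + |x.1| + |x.2|) * g x) (volume : Measure Pt) := by
  refine ((integrable_g.add integrable_axg).add integrable_ayg).congr
    (Filter.Eventually.of_forall fun x => ?_)
  simp only [Pi.add_apply]; ring

lemma integrable_ρ (i : Fin 3) : Integrable (ρ i) (volume : Measure Pt) := by
  unfold ρ
  refine integrable_base.add ?_
  split_ifs
  · exact integrable_xg
  · exact integrable_yg
  · exact integrable_zero _ _ _

/-- the three measures -/
noncomputable def μ3 (i : Fin 3) : Measure Pt := volume.withDensity fun x => ENNReal.ofReal (ρ i x)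

lemma μ3_apply (i : Fin 3) {T : Set Pt} (hT : MeasurableSet T) :
    μ3 i T = ENNReal.ofReal (∫ x in T, ρ i x) := by
  unfold μ3
  rw [withDensity_apply _ hT, ofReal_integral_eq_lintegral_ofReal (integrable_ρ i).restrict]
  exact Filter.Eventually.of_forall fun x => (ρ_pos i x).le

instance (i : Fin 3) : IsFiniteMeasure (μ3 i) := by
  constructor
  rw [μ3_apply i MeasurableSet.univ]
  exact ENNReal.ofReal_lt_top

lemma μ3_ac (i : Fin 3) : μ3 i ≪ volume := withDensity_absolutelyContinuous _ _

lemma half_integral (i : Fin 3) {T : Set Pt} (hT : MeasurableSet T) (h : μ3 i T = μ3 i Set.univ / 2) :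
    2 * ∫ x in T, ρ i x = ∫ x, ρ i x := by
  have h0 : 0 ≤ ∫ x in T, ρ i x := integral_nonneg fun x => (ρ_pos i x).le
  have h1 : 0 ≤ ∫ x, ρ i x := integral_nonneg fun x => (ρ_pos i x).le
  rw [μ3_apply i hT, μ3_apply i MeasurableSet.univ, setIntegral_univ] at h
  have h2 : ENNReal.ofReal (∫ x, ρ i x) / 2 = ENNReal.ofReal ((∫ x, ρ i x) / 2) := by
    rw [ENNReal.ofReal_div_of_pos (by norm_num)]
    simp
  rw [h2, ENNReal.ofReal_eq_ofReal_iff h0 (by positivity)] at h
  linarith

/-- odd functions have integral zero -/
lemma integral_odd (f : Pt → ℝ) (hf : ∀ x, f (-x) = -f x) : ∫ x, f x = 0 := by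
  have h : ∫ x, f (-x) = ∫ x, f x := integral_neg_eq_self f volume
  simp only [hf, integral_neg] at h
  linarith

lemma integral_xg : ∫ x : Pt, x.1 * g x = 0 := by
  refine integral_odd _ fun x => ?_
  rw [g_neg]; simp

lemma integral_yg : ∫ x : Pt, x.2 * g x = 0 := by
  refine integral_odd _ fun x => ?_
  rw [g_neg]; simp

lemma moments {T : Set Pt} (hT : MeasurableSet T) (h : ∀ i, μ3 i T = μ3 i Set.univ / 2) :
    ∫ x in T, x.1 * g x = 0 ∧ ∫ x in T, x.2 * g x = 0 := by
  have h0 := half_integral 0 hT (h 0)
  have h1 := half_integral 1 hT (h 1)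
  have h2 := half_integral 2 hT (h 2)
  have e0 : ∀ x, ρ 0 x = (1 + |x.1| + |x.2|) * g x := fun x => by simp [ρ]
  have e1 : ∀ x, ρ 1 x = (1 + |x.1| + |x.2|) * g x + x.1 * g x := fun x => by simp [ρ]
  have e2 : ∀ x, ρ 2 x = (1 + |x.1| + |x.2|) * g x + x.2 * g x := fun x => by simp [ρ]
  simp only [e0] at h0
  simp only [e1] at h1
  simp only [e2] at h2
  rw [integral_add integrable_base.restrict integrable_xg.restrict, integral_add integrable_base integrable_xg,
    integral_xg] at h1
  rw [integral_add integrable_base.restrict integrable_yg.restrict, integral_add integrable_base integrable_yg,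
    integral_yg] at h2
  constructor <;> linarith

/-- the key inequality: no set whose odd part has the sign of a linear functional is a common half -/
lemma no_half {T : Set Pt} (hT : MeasurableSet T) (a b : ℝ)
    (h1 : ∀ x ∈ T, -x ∉ T → 0 < a * x.1 + b * x.2)
    (U : Set Pt) (hU : IsOpen U) (hne : U.Nonempty) (hUT : U ⊆ T) (hU' : ∀ x ∈ U, -x ∉ T) :
    ¬ ∀ i, μ3 i T = μ3 i Set.univ / 2 := by
  intro h
  obtain ⟨m1, m2⟩ := moments hT h
  classical
  set l : Pt → ℝ := fun x => (a * x.1 + b * x.2) * g x with hl
  have li : Integrable l (volume : Measure Pt) := by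
    refine ((integrable_xg.const_mul a).add (integrable_yg.const_mul b)).congr
      (Filter.Eventually.of_forall fun x => ?_)
    simp only [hl, Pi.add_apply]; ring
  have hl0 : ∫ x in T, l x = 0 := by
    have : ∀ x, l x = a * (x.1 * g x) + b * (x.2 * g x) := fun x => by simp only [hl]; ring
    simp only [this]
    rw [integral_add (integrable_xg.const_mul a).restrict (integrable_yg.const_mul b).restrict,
      integral_const_mul, integral_const_mul, m1, m2]
    simp
  have hlodd : ∀ x, l (-x) = -l x := fun x => by
    simp only [hl, g_neg, Prod.fst_neg, Prod.snd_neg]; ring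
  have e1 : ∫ x, T.indicator l x = 0 := by rw [integral_indicator hT]; exact hl0
  have e2 : ∫ x, T.indicator l (-x) = 0 := by
    rw [integral_neg_eq_self (T.indicator l) volume]; exact e1
  have ii : Integrable (T.indicator l) (volume : Measure Pt) := li.indicator hT
  have ii' : Integrable (fun x => T.indicator l (-x)) (volume : Measure Pt) := ii.comp_neg
  set F : Pt → ℝ := fun x => T.indicator l x + T.indicator l (-x) with hF
  have hF0 : ∫ x, F x = 0 := by
    rw [hF, integral_add ii ii', e1, e2]; simp
  have hFn : 0 ≤ F := by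
    intro x
    simp only [hF, Pi.zero_apply]
    by_cases hx : x ∈ T <;> by_cases hx' : -x ∈ T
    · rw [Set.indicator_of_mem hx, Set.indicator_of_mem hx', hlodd]; linarith
    · rw [Set.indicator_of_mem hx, Set.indicator_of_notMem hx']
      have := h1 x hx hx'
      have hg := g_pos x
      simp only [hl]; nlinarith
    · rw [Set.indicator_of_notMem hx, Set.indicator_of_mem hx']
      have := h1 (-x) hx' (by simpa using hx)
      have hg := g_pos (-x)
      simp only [hl]; nlinarith
    · rw [Set.indicator_of_notMem hx, Set.indicator_of_notMem hx']; simp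
  have hpos : 0 < ∫ x, F x := by
    rw [integral_pos_iff_support_of_nonneg hFn (ii.add ii')]
    refine lt_of_lt_of_le (hU.measure_pos volume hne) (measure_mono fun x hx => ?_)
    rw [Function.mem_support]
    have hxT := hUT hx
    have hx' := hU' x hx
    simp only [hF]
    rw [Set.indicator_of_mem hxT, Set.indicator_of_notMem hx']
    have := h1 x hxT hx'
    have hg := g_pos x
    simp only [hl]
    nlinarith [mul_pos this hg]
  linarith

end MPde2e60
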