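import Pool.Agent.Lib.MP_de2e60_co.Defs

/-!
Basic facts on pieces of polygonal paths, and the counting lemmas.
-/

set_option autoImplicit false

namespace MPde2e60

/-- the path meets the first `N` sets -/
def MeetsAll (N k : ℕ) (K : ℕ → Set Pt) (v : ℕ → Pt) (d e : Pt) : Prop :=
  ∀ j < N, ∃ i ≤ k, ∃ x ∈ K j, x ∈ piece k v d e i

/-- height above the line of slope `ω` -/
def hgt (ω : ℝ) (p : Pt) : ℝ := p.2 - ω * p.1

lemma hgt_add (ω : ℝ) (p q : Pt) : hgt ω (p + q) = hgt ω p + hgt ω q := by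
  simp only [hgt, Prod.fst_add, Prod.snd_add]; ring
lemma hgt_sub (ω : ℝ) (p q : Pt) : hgt ω (p - q) = hgt ω p - hgt ω q := by
  simp only [hgt, Prod.fst_sub, Prod.snd_sub]; ring
lemma hgt_smul (ω t : ℝ) (p : Pt) : hgt ω (t • p) = t * hgt ω p := by
  simp only [hgt, Prod.smul_fst, Prod.smul_snd, smul_eq_mul]; ring
lemma cross_hgt (ω : ℝ) (a b : Pt) : cross a b = a.1 * hgt ω b - hgt ω a * b.1 := by
  simp only [cross, hgt]; ring
lemma hgt_change (ω γ : ℝ) (p : Pt) : hgt (ω - γ) p = hgt ω p + γ * p.1 := by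
  simp only [hgt]; ring

/-! ### pieces -/

lemma segment_param {a b x : Pt} (hx : x ∈ segment ℝ a b) :
    ∃ t : ℝ, 0 ≤ t ∧ t ≤ 1 ∧ x = a + t • (b - a) := by
  rw [segment_eq_image'] at hx
  obtain ⟨t, ⟨h0, h1⟩, rfl⟩ := hx
  exact ⟨t, h0, h1, rfl⟩

lemma piece_zero {k : ℕ} (hk : k ≠ 0) (v : ℕ → Pt) (d e : Pt) : piece k v d e 0 = ray (v 1) d := by
  simp [piece, hk]

lemma piece_last {k : ℕ} (hk : k ≠ 0) (v : ℕ → Pt) (d e : Pt) : piece k v d e k = ray (v k) e := by
  simp [piece, hk]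

lemma piece_mid {k i : ℕ} (h0 : i ≠ 0) (h1 : i < k) (v : ℕ → Pt) (d e : Pt) :
    piece k v d e i = segment ℝ (v i) (v (i + 1)) := by
  simp [piece, h0, h1.ne, (show k ≠ 0 by omega)]

lemma piece_sub_line {k i : ℕ} (v : ℕ → Pt) (d e : Pt) :
    ∃ p D : Pt, ∀ x ∈ piece k v d e i, ∃ t : ℝ, x = p + t • D := by
  unfold piece
  split_ifs
  · exact ⟨v 0, d, fun x hx => hx⟩
  · refine ⟨v 1, d, fun x hx => ?_⟩
    obtain ⟨t, -, rfl⟩ := hx
    exact ⟨t, rfl⟩
  · refine ⟨v k, e, fun x hx => ?_⟩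
    obtain ⟨t, -, rfl⟩ := hx
    exact ⟨t, rfl⟩
  · refine ⟨v i, v (i + 1) - v i, fun x hx => ?_⟩
    obtain ⟨t, -, -, rfl⟩ := segment_param hx
    exact ⟨t, rfl⟩

lemma piece_collinear {k i : ℕ} {v : ℕ → Pt} {d e p q s : Pt} (hp : p ∈ piece k v d e i)
    (hq : q ∈ piece k v d e i) (hs : s ∈ piece k v d e i) : cross (q - p) (s - p) = 0 := by
  obtain ⟨a, D, h⟩ := piece_sub_line (k := k) (i := i) v d e
  obtain ⟨t1, rfl⟩ := h p hp
  obtain ⟨t2, rfl⟩ := h q hq
  obtain ⟨t3, rfl⟩ := h s hs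
  simp only [cross, Prod.fst_sub, Prod.snd_sub, Prod.fst_add, Prod.snd_add, Prod.smul_fst,
    Prod.smul_snd, smul_eq_mul]
  ring

lemma piece_param {k i : ℕ} {v : ℕ → Pt} {d e p q w : Pt} (hp : p ∈ piece k v d e i)
    (hq : q ∈ piece k v d e i) (hw : w ∈ piece k v d e i) (hpq : p ≠ q) :
    ∃ τ : ℝ, w = p + τ • (q - p) := by
  obtain ⟨a, D, h⟩ := piece_sub_line (k := k) (i := i) v d e
  obtain ⟨t1, rfl⟩ := h p hp
  obtain ⟨t2, rfl⟩ := h q hq
  obtain ⟨t3, rfl⟩ := h w hw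
  have h12 : t2 - t1 ≠ 0 := by
    intro h0
    apply hpq
    rw [show t1 = t2 by linarith]
  refine ⟨(t3 - t1) / (t2 - t1), ?_⟩
  have e1 : a + t2 • D - (a + t1 • D) = (t2 - t1) • D := by rw [sub_smul]; abel
  rw [e1, smul_smul, div_mul_cancel₀ _ h12, sub_smul]
  abel

/-- turn number `i` lies on piece `i` -/
lemma turn_mem_right {k i : ℕ} (h1 : 1 ≤ i) (h2 : i ≤ k) (v : ℕ → Pt) (d e : Pt) :
    v i ∈ piece k v d e i := by
  rcases h2.eq_or_lt with rfl | h
  · rw [piece_last (by omega)]; exact ⟨0, le_rfl, by simp⟩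
  · rw [piece_mid (by omega) h]; exact left_mem_segment ℝ _ _

/-- turn number `i + 1` lies on piece `i` -/
lemma turn_mem_left {k i : ℕ} (h2 : i + 1 ≤ k) (v : ℕ → Pt) (d e : Pt) :
    v (i + 1) ∈ piece k v d e i := by
  rcases Nat.eq_zero_or_pos i with rfl | h
  · rw [piece_zero (by omega)]; exact ⟨0, le_rfl, by simp⟩
  · rw [piece_mid (by omega) (by omega)]; exact right_mem_segment ℝ _ _

lemma segment_sub_ray_left {a b x : Pt} (hx : x ∈ segment ℝ a b) : x ∈ ray b (a - b) := by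
  rw [segment_symm] at hx
  obtain ⟨t, h0, -, rfl⟩ := segment_param hx
  exact ⟨t, h0, rfl⟩

lemma segment_sub_ray_right {a b x : Pt} (hx : x ∈ segment ℝ a b) : x ∈ ray a (b - a) := by
  obtain ⟨t, h0, -, rfl⟩ := segment_param hx
  exact ⟨t, h0, rfl⟩

/-- remove the first piece -/
lemma trim_first {n : ℕ} (hn : 1 ≤ n) {v : ℕ → Pt} {d e x : Pt} {i : ℕ} (h0 : 1 ≤ i) (hi : i ≤ n + 1)
    (hx : x ∈ piece (n + 1) v d e i) :
    x ∈ piece n (fun j => v (j + 1)) (v 1 - v 2) e (i - 1) := by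
  rcases hi.eq_or_lt with rfl | h
  · rw [piece_last (by omega)] at hx
    rw [show n + 1 - 1 = n from rfl, piece_last (by omega)]; exact hx
  · rw [piece_mid (by omega) h] at hx
    rcases h0.eq_or_lt with rfl | h1
    · rw [show 1 - 1 = 0 from rfl, piece_zero (by omega)]
      exact segment_sub_ray_left hx
    · rw [piece_mid (by omega) (by omega)]
      have e1 : i - 1 + 1 = i := by omega
      simp only [e1]; exact hx

/-- remove the last piece -/
lemma trim_last {n : ℕ} (hn : 1 ≤ n) {v : ℕ → Pt} {d e x : Pt} {i : ℕ} (hi : i ≤ n)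
    (hx : x ∈ piece (n + 1) v d e i) :
    x ∈ piece n v d (v (n + 1) - v n) i := by
  rcases Nat.eq_zero_or_pos i with rfl | h0
  · rw [piece_zero (by omega)] at hx
    rw [piece_zero (by omega)]; exact hx
  · rw [piece_mid (by omega) (by omega)] at hx
    rcases hi.eq_or_lt with rfl | h
    · rw [piece_last (by omega)]; exact segment_sub_ray_right hx
    · rw [piece_mid (by omega) h]; exact hx

/-! ### counting -/

lemma count_core {N k : ℕ} {f : ℕ → ℕ} {cap : ℕ → ℕ} (hf : ∀ j < N, f j ≤ k)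
    (hcap : ∀ i ≤ k, ((Finset.range N).filter fun j => f j = i).card ≤ cap i)
    (hsum : ∑ i ∈ Finset.range (k + 1), cap i = N) :
    ∀ i ≤ k, ((Finset.range N).filter fun j => f j = i).card = cap i := by
  have h1 : (Finset.range N).card = ∑ i ∈ Finset.range (k + 1),
      ((Finset.range N).filter fun j => f j = i).card := by
    refine Finset.card_eq_sum_card_fiberwise ?_
    intro j hj
    have := hf j (Finset.mem_range.1 hj)
    simp only [Finset.coe_range, Set.mem_Iio]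
    omega
  rw [Finset.card_range] at h1
  have h2 := (Finset.sum_eq_sum_iff_of_le (s := Finset.range (k + 1))
    (f := fun i => ((Finset.range N).filter fun j => f j = i).card) (g := cap)
    (fun i hi => hcap i (by have := Finset.mem_range.1 hi; omega))).1 (by rw [← h1, hsum])
  intro i hi
  exact h2 i (Finset.mem_range.2 (by omega))

lemma card_le_two_of {N : ℕ} {f : ℕ → ℕ} {i : ℕ}
    (h3 : ∀ a b c, a < b → b < c → c < N → f a = i → f b = i → f c = i → False) :
    ((Finset.range N).filter fun j => f j = i).card ≤ 2 := by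
  by_contra hc
  push Not at hc
  set S := (Finset.range N).filter fun j => f j = i with hS
  have hne : S.Nonempty := Finset.card_pos.1 (by omega)
  have hmem : ∀ x, x ∈ S ↔ x < N ∧ f x = i := fun x => by simp [hS]
  set a := S.min' hne
  set c := S.max' hne
  have ha := S.min'_mem hne
  have hcm := S.max'_mem hne
  have h1 : 0 < ((S.erase a).erase c).card := by
    have e1 := Finset.card_erase_of_mem ha
    have e2 := Finset.pred_card_le_card_erase (s := S.erase a) (a := c)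
    change _ - 1 ≤ _ at e2
    rw [e1] at e2
    omega
  obtain ⟨b, hb⟩ := Finset.card_pos.1 h1
  rw [Finset.mem_erase, Finset.mem_erase] at hb
  obtain ⟨hbc, hba, hbS⟩ := hb
  have l1 : a < b := lt_of_le_of_ne (S.min'_le b hbS) (Ne.symm hba)
  have l2 : b < c := lt_of_le_of_ne (S.le_max' b hbS) hbc
  exact h3 a b c l1 l2 ((hmem c).1 hcm).1 ((hmem a).1 ha).2 ((hmem b).1 hbS).2 ((hmem c).1 hcm).2

lemma card_le_one_of {N : ℕ} {f : ℕ → ℕ} {i : ℕ}
    (h2 : ∀ a b, a < b → b < N → f a = i → f b = i → False) :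
    ((Finset.range N).filter fun j => f j = i).card ≤ 1 := by
  rw [Finset.card_le_one]
  intro a ha b hb
  rw [Finset.mem_filter, Finset.mem_range] at ha hb
  rcases lt_trichotomy a b with h | h | h
  · exact (h2 a b h hb.1 ha.2 hb.2).elim
  · exact h
  · exact (h2 b a h ha.1 hb.2 ha.2).elim

lemma pair_of_card {N : ℕ} {f : ℕ → ℕ} {i : ℕ}
    (h : ((Finset.range N).filter fun j => f j = i).card = 2) :
    ∃ a b, a < b ∧ b < N ∧ f a = i ∧ f b = i ∧ ∀ c < N, f c = i → c = a ∨ c = b := by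
  obtain ⟨x, y, hxy, hS⟩ := Finset.card_eq_two.1 h
  have hmem : ∀ c, c < N ∧ f c = i ↔ c = x ∨ c = y := fun c => by
    rw [← Finset.mem_range, ← Finset.mem_filter (s := Finset.range N) (p := fun j => f j = i), hS]
    simp
  have hx := (hmem x).2 (Or.inl rfl)
  have hy := (hmem y).2 (Or.inr rfl)
  rcases lt_or_gt_of_ne hxy with h1 | h1
  · exact ⟨x, y, h1, hy.1, hx.2, hy.2, fun c h2 h3 => (hmem c).1 ⟨h2, h3⟩⟩
  · exact ⟨y, x, h1, hx.1, hy.2, hx.2, fun c h2 h3 => ((hmem c).1 ⟨h2, h3⟩).symm⟩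

/-- `2 (k + 1)` objects in `k + 1` classes, at most two in each: exactly two in each -/
lemma count_two {k : ℕ} {f : ℕ → ℕ} (hf : ∀ j < 2 * (k + 1), f j ≤ k)
    (h3 : ∀ a b c, a < b → b < c → c < 2 * (k + 1) → f a = f b → f b = f c → False) :
    ∀ i ≤ k, ∃ a b, a < b ∧ b < 2 * (k + 1) ∧ f a = i ∧ f b = i ∧
      ∀ c < 2 * (k + 1), f c = i → c = a ∨ c = b := by
  intro i hi
  refine pair_of_card ?_
  refine count_core (cap := fun _ => 2) hf ?_ ?_ i hi
  · intro i _
    exact card_le_two_of fun a b c h1 h2 h4 e1 e2 e3 => h3 a b c h1 h2 h4 (e1.trans e2.symm) (e2.trans e3.symm)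
  · simp; ring

/-- `2 m + 2` objects in `m + 2` classes, at most two in each and at most one in the two ends -/
lemma count_ends {m : ℕ} {f : ℕ → ℕ} (hf : ∀ j < 2 * m + 2, f j ≤ m + 1)
    (h3 : ∀ a b c, a < b → b < c → c < 2 * m + 2 → f a = f b → f b = f c → False)
    (h2 : ∀ a b, a < b → b < 2 * m + 2 → f a = f b → f a ≠ 0 ∧ f a ≠ m + 1) :
    (∃ a, a < 2 * m + 2 ∧ f a = 0 ∧ ∀ c < 2 * m + 2, f c = 0 → c = a) ∧
    (∃ a, a < 2 * m + 2 ∧ f a = m + 1 ∧ ∀ c < 2 * m + 2, f c = m + 1 → c = a) ∧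
    (∀ i, 1 ≤ i → i ≤ m → ∃ a b, a < b ∧ b < 2 * m + 2 ∧ f a = i ∧ f b = i ∧
      ∀ c < 2 * m + 2, f c = i → c = a ∨ c = b) := by
  have key := count_core (N := 2 * m + 2) (k := m + 1) (f := f)
    (cap := fun i => if i = 0 ∨ i = m + 1 then 1 else 2) hf ?_ ?_
  · have one : ∀ i ≤ m + 1, (i = 0 ∨ i = m + 1) →
        ∃ a, a < 2 * m + 2 ∧ f a = i ∧ ∀ c < 2 * m + 2, f c = i → c = a := by
      intro i hi hi2
      have h := key i hi
      simp only [if_pos hi2] at h
      obtain ⟨a, ha⟩ := Finset.card_eq_one.1 h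
      have hmem : ∀ c, c < 2 * m + 2 ∧ f c = i ↔ c = a := fun c => by
        rw [← Finset.mem_range, ← Finset.mem_filter (s := Finset.range (2 * m + 2))
          (p := fun j => f j = i), ha]
        simp
      exact ⟨a, ((hmem a).2 rfl).1, ((hmem a).2 rfl).2, fun c h4 h5 => (hmem c).1 ⟨h4, h5⟩⟩
    refine ⟨one 0 (by omega) (Or.inl rfl), one (m + 1) le_rfl (Or.inr rfl), fun i h4 h5 => ?_⟩
    refine pair_of_card ?_
    have h := key i (by omega)
    rw [if_neg (by omega)] at h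
    exact h
  · intro i hi
    show _ ≤ if i = 0 ∨ i = m + 1 then 1 else 2
    split_ifs with hc
    · refine card_le_one_of fun a b h4 h5 e1 e2 => ?_
      obtain ⟨h6, h7⟩ := h2 a b h4 h5 (e1.trans e2.symm)
      rcases hc with rfl | rfl
      · exact h6 e1
      · exact h7 e1
    · exact card_le_two_of fun a b c h1 h2 h4 e1 e2 e3 =>
        h3 a b c h1 h2 h4 (e1.trans e2.symm) (e2.trans e3.symm)
  · rw [Finset.sum_range_succ, Finset.sum_range_succ']
    have : ∑ i ∈ Finset.range m, (if i + 1 = 0 ∨ i + 1 = m + 1 then 1 else 2) = ∑ i ∈ Finset.range m, 2 := by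
      refine Finset.sum_congr rfl fun i hi => ?_
      have := Finset.mem_range.1 hi
      rw [if_neg (by omega)]
    rw [this]
    simp
    ring

end MPde2e60
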