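import Pool.Agent.Lib.MP_de2e60_co.Defs

/-!
Two finite absolutely continuous measures on the plane are bisected by one line.
-/

set_option autoImplicit false

namespace MPde2e60

open MeasureTheory Set Filter Topology

/-- signed distance of `x` in the direction of angle `θ` -/
noncomputable def dot (θ : ℝ) (x : Pt) : ℝ := x.1 * Real.cos θ + x.2 * Real.sin θ

lemma dot_continuous : Continuous fun q : ℝ × Pt => dot q.1 q.2 := by unfold dot; fun_prop

lemma dot_cont (θ : ℝ) : Continuous (dot θ) := by unfold dot; fun_prop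

lemma dot_cont_left (x : Pt) : Continuous fun θ => dot θ x := by unfold dot; fun_prop

/-- `dot θ` as a linear map -/
noncomputable def dotL (θ : ℝ) : Pt →ₗ[ℝ] ℝ where
  toFun := dot θ
  map_add' x y := by simp only [dot, Prod.fst_add, Prod.snd_add]; ring
  map_smul' t x := by simp only [dot, Prod.smul_fst, Prod.smul_snd, smul_eq_mul, RingHom.id_apply]; ring

lemma dot_line_null (θ h : ℝ) : (volume : Measure Pt) {x | dot θ x = h} = 0 := by
  set u : Pt := (Real.cos θ, Real.sin θ) with hu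
  have huu : dot θ u = 1 := by
    simp only [dot, hu]; have := Real.cos_sq_add_sin_sq θ; nlinarith
  have e : {x | dot θ x = h} = (fun x => h • u + x) '' ((LinearMap.ker (dotL θ) : Submodule ℝ Pt) : Set Pt) := by
    ext x
    constructor
    · intro hx
      refine ⟨x - h • u, ?_, add_sub_cancel _ _⟩
      show dotL θ (x - h • u) = 0
      rw [map_sub, map_smul]
      show dot θ x - h • dot θ u = 0
      rw [huu, show dot θ x = h from hx]; simp
    · rintro ⟨y, hy, rfl⟩
      show dotL θ (h • u + y) = h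
      have hy' : dotL θ y = 0 := hy
      rw [map_add, map_smul, hy']
      show h • dot θ u + 0 = h
      rw [huu]; simp
  rw [e, Set.image_add_left, measure_preimage_add]
  refine Measure.addHaar_submodule _ _ ?_
  intro htop
  have : u ∈ (LinearMap.ker (dotL θ) : Submodule ℝ Pt) := by rw [htop]; trivial
  have h1 : dot θ u = 0 := this
  rw [huu] at h1; exact one_ne_zero h1

lemma measurable_half (θ h : ℝ) : MeasurableSet {x | dot θ x ≤ h} :=
  (isClosed_le (dot_cont θ) continuous_const).measurableSet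

/-- the measure of a half plane -/
noncomputable def hp (μ : Measure Pt) (θ h : ℝ) : ℝ := μ.real {x | dot θ x ≤ h}

section
variable {μ : Measure Pt} [IsFiniteMeasure μ]

lemma hp_continuous (hμ : μ ≪ volume) : Continuous fun q : ℝ × ℝ => hp μ q.1 q.2 := by
  rw [continuous_iff_continuousAt]
  rintro ⟨θ, h⟩
  have key : Tendsto (fun q : ℝ × ℝ => μ {x | dot q.1 x ≤ q.2}) (𝓝 (θ, h)) (𝓝 (μ {x | dot θ x ≤ h})) := by
    refine tendsto_measure_of_ae_tendsto_indicator_of_isFiniteMeasure (𝓝 (θ, h))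
      (measurable_half θ h) (fun q => measurable_half q.1 q.2) ?_
    have h0 : ∀ᵐ x ∂μ, dot θ x ≠ h := by
      have := hμ (dot_line_null θ h)
      rw [ae_iff]; simpa using this
    filter_upwards [h0] with x hx
    have c1 : Continuous fun q : ℝ × ℝ => dot q.1 x := (dot_cont_left x).comp continuous_fst
    rcases lt_or_gt_of_ne hx with h1 | h1
    · have := (isOpen_lt c1 continuous_snd).mem_nhds (show (θ, h) ∈ {q : ℝ × ℝ | dot q.1 x < q.2} from h1)
      filter_upwards [this] with q hq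
      have hq' : dot q.1 x < q.2 := hq
      exact ⟨fun _ => h1.le, fun _ => hq'.le⟩
    · have := (isOpen_lt continuous_snd c1).mem_nhds (show (θ, h) ∈ {q : ℝ × ℝ | q.2 < dot q.1 x} from h1)
      filter_upwards [this] with q hq
      have hq' : q.2 < dot q.1 x := hq
      exact ⟨fun h' => absurd hq' (not_lt.2 h'), fun h' => absurd h1 (not_lt.2 h')⟩
  exact (ENNReal.tendsto_toReal (measure_ne_top μ _)).comp key

lemma hp_mono (θ : ℝ) : Monotone (hp μ θ) := by
  intro a b hab
  exact measureReal_mono (fun x (hx : dot θ x ≤ a) => hx.trans hab)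

lemma dot_add_pi (θ : ℝ) (x : Pt) : dot (θ + Real.pi) x = -dot θ x := by
  simp only [dot, Real.cos_add_pi, Real.sin_add_pi]; ring

lemma hp_flip (hμ : μ ≪ volume) (θ h : ℝ) :
    hp μ (θ + Real.pi) (-h) = μ.real univ - hp μ θ h := by
  have e1 : {x | dot (θ + Real.pi) x ≤ -h} = {x | h ≤ dot θ x} := by
    ext x; simp only [mem_ofPred_eq, dot_add_pi, neg_le_neg_iff]
  have hnull : μ {x | dot θ x = h} = 0 := hμ (dot_line_null θ h)
  have e2 : μ.real {x | h ≤ dot θ x} = μ.real ({x | dot θ x ≤ h}ᶜ) := by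
    unfold Measure.real
    congr 1
    refine measure_congr ?_
    have h0 : ∀ᵐ x ∂μ, dot θ x ≠ h := by
      rw [ae_iff]; simpa using hnull
    filter_upwards [h0] with x hx
    show (h ≤ dot θ x) = ¬ (dot θ x ≤ h)
    rw [not_le]
    exact propext ⟨fun h' => lt_of_le_of_ne h' (Ne.symm hx), le_of_lt⟩
  unfold hp
  rw [e1, e2, measureReal_compl (measurable_half θ h)]

lemma abs_dot_le (θ : ℝ) (x : Pt) : |dot θ x| ≤ |x.1| + |x.2| := by
  unfold dot
  have h1 := Real.abs_cos_le_one θ
  have h2 := Real.abs_sin_le_one θ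
  calc |x.1 * Real.cos θ + x.2 * Real.sin θ| ≤ |x.1 * Real.cos θ| + |x.2 * Real.sin θ| := abs_add_le _ _
    _ = |x.1| * |Real.cos θ| + |x.2| * |Real.sin θ| := by rw [abs_mul, abs_mul]
    _ ≤ |x.1| * 1 + |x.2| * 1 := by gcongr
    _ = |x.1| + |x.2| := by ring

/-- more than half of the mass is in a bounded set -/
lemma exists_radius (h0 : 0 < μ.real univ) :
    ∃ R : ℝ, 0 < R ∧ ∀ θ h : ℝ, (R ≤ h → μ.real univ / 2 < hp μ θ h) ∧
      (h < -R → hp μ θ h < μ.real univ / 2) := by
  have key : Tendsto (fun n : ℕ => μ {x : Pt | |x.1| + |x.2| ≤ n}) atTop (𝓝 (μ univ)) := by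
    have e : (univ : Set Pt) = ⋃ n : ℕ, {x : Pt | |x.1| + |x.2| ≤ n} := by
      ext x
      simp only [mem_univ, mem_iUnion, true_iff]
      exact exists_nat_ge (|x.1| + |x.2|)
    rw [e]
    refine tendsto_measure_iUnion_atTop ?_
    intro a b hab x hx
    have h1 : |x.1| + |x.2| ≤ (a : ℝ) := hx
    have h2 : (a : ℝ) ≤ b := Nat.cast_le.2 hab
    show |x.1| + |x.2| ≤ (b : ℝ)
    exact h1.trans h2
  have key2 : Tendsto (fun n : ℕ => μ.real {x : Pt | |x.1| + |x.2| ≤ n}) atTop (𝓝 (μ.real univ)) :=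
    (ENNReal.tendsto_toReal (measure_ne_top μ _)).comp key
  have hev := (key2.eventually (lt_mem_nhds (show μ.real univ / 2 < μ.real univ by linarith))).and
    (eventually_ge_atTop 1)
  obtain ⟨n, hn, hn1⟩ := hev.exists
  refine ⟨n, by exact_mod_cast hn1, fun θ h => ⟨fun hh => ?_, fun hh => ?_⟩⟩
  · refine lt_of_lt_of_le hn (measureReal_mono ?_)
    intro x hx
    exact ((le_abs_self _).trans (abs_dot_le θ x)).trans (le_trans hx hh)
  · have hsub : {x | dot θ x ≤ h} ⊆ {x : Pt | |x.1| + |x.2| ≤ n}ᶜ := by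
      intro x hx hx2
      have h1 : |x.1| + |x.2| ≤ (n : ℝ) := hx2
      have h2 : dot θ x ≤ h := hx
      have h3 := neg_abs_le (dot θ x)
      have h4 := abs_dot_le θ x
      linarith
    have hms : MeasurableSet {x : Pt | |x.1| + |x.2| ≤ n} :=
      (isClosed_le (by fun_prop) continuous_const).measurableSet
    have h5 : hp μ θ h ≤ μ.real ({x : Pt | |x.1| + |x.2| ≤ n}ᶜ) := measureReal_mono hsub
    rw [measureReal_compl hms] at h5
    linarith

end

/-- core statement, for two continuous families of monotone functions -/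
lemma core {f g : ℝ → ℝ → ℝ} (hf : Continuous fun q : ℝ × ℝ => f q.1 q.2)
    (hg : Continuous fun q : ℝ × ℝ => g q.1 q.2) (mf : ∀ θ, Monotone (f θ))
    {a b R : ℝ} (ff : ∀ θ h, f (θ + Real.pi) (-h) = 2 * a - f θ h)
    (fg : ∀ θ h, g (θ + Real.pi) (-h) = 2 * b - g θ h)
    (hR : ∀ θ h, (R ≤ h → a < f θ h) ∧ (h < -R → f θ h < a)) :
    ∃ θ h, f θ h = a ∧ g θ h = b := by
  by_contra hno
  push Not at hno
  have hfθ : ∀ θ, Continuous (f θ) := fun θ => hf.comp (by fun_prop : Continuous fun h : ℝ => (θ, h))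
  have hgθ : ∀ θ, Continuous (g θ) := fun θ => hg.comp (by fun_prop : Continuous fun h : ℝ => (θ, h))
  -- every fibre is nonempty
  have hfib : ∀ θ, ∃ h, f θ h = a := by
    intro θ
    have h1 := (hR θ (max R 0)).1 (le_max_left _ _)
    have h2 := (hR θ (-(max R 0) - 1)).2 (by
      have := le_max_left R 0; linarith)
    exact mem_range_of_exists_le_of_exists_ge (hfθ θ) ⟨_, h2.le⟩ ⟨_, h1.le⟩
  have hbd : ∀ θ h, f θ h = a → h ∈ Icc (-R) R := by
    intro θ h hh
    constructor
    · by_contra hc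
      push Not at hc
      have := (hR θ h).2 hc
      linarith
    · by_contra hc
      push Not at hc
      have := (hR θ h).1 hc.le
      linarith
  set K : Set (ℝ × ℝ) := Icc (0 : ℝ) Real.pi ×ˢ Icc (-R) R with hK
  have cK : IsCompact K := isCompact_Icc.prod isCompact_Icc
  set A : Set ℝ := Prod.fst '' (K ∩ {q | f q.1 q.2 = a ∧ b ≤ g q.1 q.2}) with hA
  set B : Set ℝ := Prod.fst '' (K ∩ {q | f q.1 q.2 = a ∧ g q.1 q.2 ≤ b}) with hB
  have clA : IsClosed A := by
    refine (IsCompact.image (cK.inter_right ?_) continuous_fst).isClosed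
    exact (isClosed_eq hf continuous_const).inter (isClosed_le continuous_const hg)
  have clB : IsClosed B := by
    refine (IsCompact.image (cK.inter_right ?_) continuous_fst).isClosed
    exact (isClosed_eq hf continuous_const).inter (isClosed_le hg continuous_const)
  have memA : ∀ θ ∈ Icc (0 : ℝ) Real.pi, ∀ h, f θ h = a → b ≤ g θ h → θ ∈ A := by
    intro θ hθ h h1 h2
    exact ⟨(θ, h), ⟨⟨hθ, hbd θ h h1⟩, h1, h2⟩, rfl⟩
  have memB : ∀ θ ∈ Icc (0 : ℝ) Real.pi, ∀ h, f θ h = a → g θ h ≤ b → θ ∈ B := by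
    intro θ hθ h h1 h2
    exact ⟨(θ, h), ⟨⟨hθ, hbd θ h h1⟩, h1, h2⟩, rfl⟩
  have hcov : Icc (0 : ℝ) Real.pi ⊆ A ∪ B := by
    intro θ hθ
    obtain ⟨h, hh⟩ := hfib θ
    rcases le_total b (g θ h) with h1 | h1
    · exact Or.inl (memA θ hθ h hh h1)
    · exact Or.inr (memB θ hθ h hh h1)
  have hpi := Real.pi_pos
  have m0 : (0 : ℝ) ∈ Icc (0 : ℝ) Real.pi := ⟨le_rfl, hpi.le⟩
  have mpi : Real.pi ∈ Icc (0 : ℝ) Real.pi := ⟨hpi.le, le_rfl⟩
  have neAB : (Icc (0 : ℝ) Real.pi ∩ A).Nonempty ∧ (Icc (0 : ℝ) Real.pi ∩ B).Nonempty := by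
    obtain ⟨h, hh⟩ := hfib 0
    have e1 : f Real.pi (-h) = a := by
      have := ff 0 h; rw [zero_add] at this; rw [this, hh]; ring
    have e2 : g Real.pi (-h) = 2 * b - g 0 h := by
      have := fg 0 h; rw [zero_add] at this; exact this
    rcases le_total b (g 0 h) with h1 | h1
    · exact ⟨⟨0, m0, memA 0 m0 h hh h1⟩, ⟨Real.pi, mpi, memB _ mpi (-h) e1 (by linarith)⟩⟩
    · exact ⟨⟨Real.pi, mpi, memA _ mpi (-h) e1 (by linarith)⟩, ⟨0, m0, memB 0 m0 h hh h1⟩⟩
  obtain ⟨θ, hθ, hθA, hθB⟩ := isPreconnected_closed_iff.1 isPreconnected_Icc A B clA clB hcov neAB.1 neAB.2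
  obtain ⟨⟨θ1, h1⟩, ⟨-, f1, g1⟩, e1⟩ := hθA
  obtain ⟨⟨θ2, h2⟩, ⟨-, f2, g2⟩, e2⟩ := hθB
  simp only at f1 g1 e1 f2 g2 e2
  rw [e1] at f1 g1
  rw [e2] at f2 g2
  -- intermediate value between `h1` and `h2`
  have hmem : b ∈ g θ '' uIcc h1 h2 := by
    have := intermediate_value_uIcc (a := h1) (b := h2) (f := g θ) (hgθ θ).continuousOn
    exact this (mem_uIcc.2 (Or.inr ⟨g2, g1⟩))
  obtain ⟨h3, hh3, e3⟩ := hmem
  refine hno θ h3 ?_ e3
  rcases mem_uIcc.1 hh3 with ⟨p, q⟩ | ⟨p, q⟩
  · have := mf θ p; have := mf θ q; linarith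
  · have := mf θ p; have := mf θ q; linarith

lemma bisect_pair {μ ν : Measure Pt} [IsFiniteMeasure μ] [IsFiniteMeasure ν] (hμ : μ ≪ volume)
    (hν : ν ≪ volume) (h0 : 0 < μ.real univ) :
    ∃ θ h, hp μ θ h = μ.real univ / 2 ∧ hp ν θ h = ν.real univ / 2 := by
  obtain ⟨R, -, hR⟩ := exists_radius h0
  refine core (hp_continuous hμ) (hp_continuous hν) hp_mono (R := R) ?_ ?_ ?_
  · intro θ h; rw [hp_flip hμ]; ring
  · intro θ h; rw [hp_flip hν]; ring
  · exact fun θ h => hR θ h

/-- the ham sandwich theorem in the plane -/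
lemma bisect_two {μ ν : Measure Pt} [IsFiniteMeasure μ] [IsFiniteMeasure ν] (hμ : μ ≪ volume)
    (hν : ν ≪ volume) :
    ∃ θ h, hp μ θ h = μ.real univ / 2 ∧ hp ν θ h = ν.real univ / 2 := by
  rcases (measureReal_nonneg (μ := μ) (s := univ)).eq_or_lt' with h | h
  · rcases (measureReal_nonneg (μ := ν) (s := univ)).eq_or_lt' with h' | h'
    · refine ⟨0, 0, ?_, ?_⟩
      · have h1 : hp μ 0 0 ≤ μ.real univ := measureReal_mono (subset_univ _)
        have h2 : 0 ≤ hp μ 0 0 := measureReal_nonneg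
        linarith
      · have h1 : hp ν 0 0 ≤ ν.real univ := measureReal_mono (subset_univ _)
        have h2 : 0 ≤ hp ν 0 0 := measureReal_nonneg
        linarith
    · obtain ⟨θ, t, h1, h2⟩ := bisect_pair hν hμ h'
      exact ⟨θ, t, h2, h1⟩
  · exact bisect_pair hμ hν h

lemma mem_line_iff (θ h : ℝ) (x : Pt) :
    x ∈ line (h • (Real.cos θ, Real.sin θ)) (-Real.sin θ, Real.cos θ) ↔ dot θ x = h := by
  have hcs := Real.cos_sq_add_sin_sq θ
  constructor
  · rintro ⟨t, rfl⟩
    simp only [dot, Prod.fst_add, Prod.snd_add, Prod.smul_mk, smul_eq_mul]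
    linear_combination h * hcs
  · intro hx
    refine ⟨-x.1 * Real.sin θ + x.2 * Real.cos θ, Prod.ext ?_ ?_⟩
    · simp only [Prod.fst_add, Prod.smul_mk, smul_eq_mul]
      rw [← hx]; simp only [dot]
      linear_combination (-x.1) * hcs
    · simp only [Prod.snd_add, Prod.smul_mk, smul_eq_mul]
      rw [← hx]; simp only [dot]
      linear_combination (-x.2) * hcs

lemma isColouring_line (θ h : ℝ) :
    IsColouring 0 (fun _ => h • (Real.cos θ, Real.sin θ)) (-Real.sin θ, Real.cos θ)
      (-Real.sin θ, Real.cos θ) (fun x => decide (h < dot θ x)) := by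
  have hpath : ∀ x, x ∈ path 0 (fun _ => h • (Real.cos θ, Real.sin θ)) (-Real.sin θ, Real.cos θ)
      (-Real.sin θ, Real.cos θ) ↔ dot θ x = h := by
    intro x
    rw [← mem_line_iff θ h x]
    constructor
    · rintro ⟨i, hi, hx⟩
      simpa [piece] using hx
    · intro hx
      exact ⟨0, le_rfl, by simpa [piece] using hx⟩
  constructor
  · intro S hS hSL x hx y hy
    have hc : ContinuousOn (dot θ) S := (dot_cont θ).continuousOn
    rcases lt_or_ge h (dot θ x) with h1 | h1 <;> rcases lt_or_ge h (dot θ y) with h2 | h2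
    · simp [h1, h2]
    · exfalso
      obtain ⟨z, hz, hz2⟩ := hS.intermediate_value hy hx hc ⟨h2, h1.le⟩
      exact hSL z hz ((hpath z).2 hz2)
    · exfalso
      obtain ⟨z, hz, hz2⟩ := hS.intermediate_value hx hy hc ⟨h1, h2.le⟩
      exact hSL z hz ((hpath z).2 hz2)
    · simp [not_lt.2 h1, not_lt.2 h2]
  · intro i hi x hx _ N hN
    refine ⟨1, one_pos, fun t ht _ => ?_⟩
    have hx' : dot θ x = h := (hpath x).1 ⟨i, hi, hx⟩
    have hN' : dot θ N ≠ 0 := by
      intro h0
      apply hN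
      have : pieceDir 0 (fun _ => h • (Real.cos θ, Real.sin θ)) (-Real.sin θ, Real.cos θ)
        (-Real.sin θ, Real.cos θ) i = (-Real.sin θ, Real.cos θ) := by simp [pieceDir]
      rw [this]
      simp only [cross]
      simp only [dot] at h0
      linarith
    have e1 : dot θ (x + t • N) = h + t * dot θ N := by
      have : dotL θ (x + t • N) = dotL θ x + t • dotL θ N := by rw [map_add, map_smul]
      show dotL θ (x + t • N) = _
      rw [this]; show dot θ x + t • dot θ N = _; rw [hx', smul_eq_mul]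
    have e2 : dot θ (x - t • N) = h - t * dot θ N := by
      have : dotL θ (x - t • N) = dotL θ x - t • dotL θ N := by rw [map_sub, map_smul]
      show dotL θ (x - t • N) = _
      rw [this]; show dot θ x - t • dot θ N = _; rw [hx', smul_eq_mul]
    simp only [e1, e2]
    rcases lt_or_gt_of_ne hN' with h1 | h1
    · have h2 : t * dot θ N < 0 := mul_neg_of_pos_of_neg ht h1
      rw [decide_eq_false (by linarith), decide_eq_true (by linarith)]
      decide
    · have h2 : 0 < t * dot θ N := mul_pos ht h1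
      rw [decide_eq_true (by linarith), decide_eq_false (by linarith)]
      decide

lemma splits_of_hp {μ : Measure Pt} [IsFiniteMeasure μ] (hμ : μ ≪ volume) {θ h : ℝ}
    (hh : hp μ θ h = μ.real univ / 2) :
    SplitsByHalf (path 0 (fun _ => h • (Real.cos θ, Real.sin θ)) (-Real.sin θ, Real.cos θ)
      (-Real.sin θ, Real.cos θ)) (fun x => decide (h < dot θ x)) μ := by
  have hpath : ∀ x, x ∈ path 0 (fun _ => h • (Real.cos θ, Real.sin θ)) (-Real.sin θ, Real.cos θ)
      (-Real.sin θ, Real.cos θ) ↔ dot θ x = h := by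
    intro x
    rw [← mem_line_iff θ h x]
    constructor
    · rintro ⟨i, hi, hx⟩
      simpa [piece] using hx
    · intro hx
      exact ⟨0, le_rfl, by simpa [piece] using hx⟩
  have toE : ∀ {T : Set Pt}, μ.real T = μ.real univ / 2 → μ T = μ univ / 2 := by
    intro T hT
    have h1 : (μ T).toReal = (μ univ / 2).toReal := by
      rw [ENNReal.toReal_div]; exact hT
    exact (ENNReal.toReal_eq_toReal_iff' (measure_ne_top μ _)
      (ENNReal.div_ne_top (measure_ne_top μ _) (by norm_num))).1 h1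
  intro b
  apply toE
  cases b
  · have e : μ.real {x | x ∉ path 0 (fun _ => h • (Real.cos θ, Real.sin θ)) (-Real.sin θ, Real.cos θ)
        (-Real.sin θ, Real.cos θ) ∧ decide (h < dot θ x) = false} = hp μ θ h := by
      unfold hp Measure.real
      congr 1
      refine measure_congr ?_
      have h0 : ∀ᵐ x ∂μ, dot θ x ≠ h := by
        rw [ae_iff]; simpa using hμ (dot_line_null θ h)
      filter_upwards [h0] with x hx
      show (x ∉ _ ∧ _) = (dot θ x ≤ h)
      rw [hpath x]
      simp only [decide_eq_false_iff_not, not_lt, eq_iff_iff]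
      exact ⟨fun h' => h'.2, fun h' => ⟨hx, h'⟩⟩
    rw [e, hh]
  · have e : {x | x ∉ path 0 (fun _ => h • (Real.cos θ, Real.sin θ)) (-Real.sin θ, Real.cos θ)
        (-Real.sin θ, Real.cos θ) ∧ decide (h < dot θ x) = true} = {x | dot θ x ≤ h}ᶜ := by
      ext x
      show (x ∉ _ ∧ _) ↔ ¬ (dot θ x ≤ h)
      rw [hpath x]
      simp only [decide_eq_true_eq, not_le]
      exact ⟨fun h' => h'.2, fun h' => ⟨h'.ne', h'⟩⟩
    rw [e, measureReal_compl (measurable_half θ h)]
    show _ - hp μ θ h = _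
    rw [hh]; ring

theorem lower_one : AlwaysSplit 1 2 := by
  intro μ hfin hac
  have := hfin 0
  have := hfin 1
  obtain ⟨θ, h, h0, h1⟩ := bisect_two (hac 0) (hac 1)
  have hd : ((-Real.sin θ, Real.cos θ) : Pt) ≠ 0 := by
    intro hz
    have a1 : -Real.sin θ = 0 := congrArg Prod.fst hz
    have a2 : Real.cos θ = 0 := congrArg Prod.snd hz
    have := Real.cos_sq_add_sin_sq θ
    rw [a2, show Real.sin θ = 0 by linarith] at this
    norm_num at this
  refine ⟨0, zero_le_one, _, _, _, hd, hd, _, isColouring_line θ h, ?_⟩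
  intro i
  fin_cases i
  · exact splits_of_hp (hac 0) h0
  · exact splits_of_hp (hac 1) h1

end MPde2e60
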