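import Pool.Agent.Lib.MP_de2e60_co.StepAB

/-!
The induction, the base case and the upper bound `m(n) ≤ 2 n + 1`.
-/

set_option autoImplicit false

namespace MPde2e60

open Filter MeasureTheory

lemma exists_num {r σ η : ℝ} (r1 : 1 ≤ r) (σ0 : 0 < σ) (σ1 : σ ≤ 1) (η0 : 0 < η) :
    ∃ M δ, Num r σ η M δ := by
  set δ := 32 * (r + 1) / σ with hδ
  obtain ⟨M, hM⟩ := ((eventually_ge_atTop (1 : ℝ)).and ((eventually_ge_atTop (δ + 2 * r + 2)).and
    ((eventually_gt_atTop (4 * r ^ 2 + 4 * r)).and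
    ((eventually_gt_atTop (((11 * r + 9) + 18 * r * (r + 1)) / σ)).and
    ((eventually_gt_atTop ((r + 1) * (δ + 2))).and (eventually_ge_atTop (9 * (r + 1) / η))))))).exists
  obtain ⟨a1, a2, a3, a4, a5, a6⟩ := hM
  refine ⟨M, δ, r1, σ0, σ1, η0, ?_, a1, a2, a3, ?_, a5, ?_⟩
  · rw [hδ]; field_simp
  · have := (div_lt_iff₀ σ0).1 a4
    linarith
  · have := (div_le_iff₀ η0).1 a6
    linarith

theorem step {n : ℕ} {K : ℕ → Set Pt} {ω r σ η : ℝ} (hn : 1 ≤ n) (H : Good n K ω r σ η) :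
    ∃ K' ω' r' σ' η', Good (n + 1) K' ω' r' σ' η' := by
  obtain ⟨M, δ, N⟩ := exists_num H.r1 H.σ0 H.σ1 H.η0
  have hM := N.M1
  have hr := N.r1
  have hδ := N.δ64
  have σ0 := H.σ0
  have σ1 := H.σ1
  have m3 := N.m3
  set γ := 2 * (r + 1) / M with hγd
  have hγ : γ * M = 2 * (r + 1) := div_mul_cancel₀ _ (by linarith)
  have γ0 : 0 < γ := by positivity
  have γ1 : γ ≤ 1 := by
    by_contra hc
    push Not at hc
    have h1 : 1 * M ≤ γ * M := mul_le_mul_of_nonneg_right hc.le (by linarith)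
    have := N.m2
    nlinarith
  set r' := (M + r + δ + 2) + (8 * r + 9) + γ * (M + r + δ + 2) with hr'
  have hpos : 0 ≤ γ * (M + r + δ + 2) := by positivity
  have hold : M + r + δ + 2 ≤ r' := by linarith
  have e1 : 2 * (n + 1) + 2 = 2 * n + 4 := by ring
  refine ⟨ext n K ω r M δ, ω - γ, r', γ / 2, γ / 4, ?_⟩
  constructor
  · linarith
  · linarith
  · linarith
  · linarith
  · intro j hj
    unfold ext
    split_ifs with h1 h2
    · exact H.opn j h1
    · exact box_open _ _ _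
    · exact box_open _ _ _
  · intro j hj
    unfold ext
    split_ifs with h1 h2
    · exact H.pre j h1
    · exact box_pre _ _ _
    · exact box_pre _ _ _
  · intro j hj
    unfold ext
    split_ifs with h1 h2
    · exact H.ne j h1
    · exact box_nonempty _ _ _
    · exact box_nonempty _ _ _
  · intro j hj p hp
    have key : |p.1| ≤ M + r + δ + 2 ∧ |hgt ω p| ≤ 8 * r + 9 := by
      rcases lt_or_ge j (2 * n + 2) with h | h
      · rw [ext_old h] at hp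
        obtain ⟨h1, h2⟩ := H.bd j h p hp
        constructor <;> linarith
      · rcases (show j = 2 * n + 2 ∨ j = 2 * n + 3 by omega) with h1 | h1
        · obtain ⟨⟨g1, g2⟩, g3, g4⟩ := mem_G h1 hp
          constructor <;> rw [abs_le] <;> constructor <;> linarith
        · obtain ⟨⟨g1, g2⟩, g3, g4⟩ := mem_F h1 hp
          constructor <;> rw [abs_le] <;> constructor <;> linarith
    refine ⟨key.1.trans hold, ?_⟩
    rw [hgt_change]
    calc |hgt ω p + γ * p.1| ≤ |hgt ω p| + |γ * p.1| := abs_add_le _ _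
      _ = |hgt ω p| + γ * |p.1| := by rw [abs_mul, abs_of_pos γ0]
      _ ≤ (8 * r + 9) + γ * (M + r + δ + 2) :=
        add_le_add key.2 (mul_le_mul_of_nonneg_left key.1 γ0.le)
      _ ≤ r' := by linarith
  · intro i j hij hj
    exact two_ext H N hγ i j hij (by omega)
  · intro i j l hij hjl hl
    exact three_ext H N i j l hij hjl (by omega)
  · rw [e1]
    exact stepA hn H N
  · rw [e1]
    exact stepB hn H N hγ

/-! ### the base case -/

/-- four boxes, ordered by height: bottom, inner, right, top -/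
def K0 (j : ℕ) : Set Pt :=
  if j = 0 then box 0 0 (-120) else if j = 1 then box 0 40 (-20) else if j = 2 then box 0 160 20
  else box 0 0 120

lemma mem_K0 {j : ℕ} {p : Pt} (hp : p ∈ K0 j) :
    (j = 0 → (-1 < p.1 ∧ p.1 < 1) ∧ -121 < p.2 ∧ p.2 < -119) ∧
    (j = 1 → (39 < p.1 ∧ p.1 < 41) ∧ -21 < p.2 ∧ p.2 < -19) ∧
    (j = 2 → (159 < p.1 ∧ p.1 < 161) ∧ 19 < p.2 ∧ p.2 < 21) ∧
    (j = 3 → (-1 < p.1 ∧ p.1 < 1) ∧ 119 < p.2 ∧ p.2 < 121) := by
  have hz : hgt 0 p = p.2 := by simp [hgt]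
  refine ⟨?_, ?_, ?_, ?_⟩ <;> rintro rfl <;> simp [K0, box, hz] at hp <;>
    obtain ⟨⟨h1, h2⟩, h3, h4⟩ := hp <;> refine ⟨⟨?_, ?_⟩, ?_, ?_⟩ <;> linarith

section base
variable {b z c a : Pt}

/-- orientations of the four triples -/
lemma ori_zab (hz : z ∈ K0 1) (ha : a ∈ K0 3) (hb : b ∈ K0 0) : 0 < cross (a - z) (b - z) := by
  obtain ⟨⟨z1, z2⟩, z3, z4⟩ := (mem_K0 hz).2.1 rfl
  obtain ⟨⟨a1, a2⟩, a3, a4⟩ := (mem_K0 ha).2.2.2 rfl
  obtain ⟨⟨b1, b2⟩, b3, b4⟩ := (mem_K0 hb).1 rfl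
  simp only [cross, Prod.fst_sub, Prod.snd_sub]
  -- (a.1 - z.1) (b.2 - z.2) - (a.2 - z.2) (b.1 - z.1)
  have h1 : 38 * 98 ≤ (z.1 - a.1) * (z.2 - b.2) :=
    mul_le_mul (by linarith) (by linarith) (by norm_num) (by linarith)
  have h2 : 38 * 138 ≤ (z.1 - b.1) * (a.2 - z.2) :=
    mul_le_mul (by linarith) (by linarith) (by norm_num) (by linarith)
  nlinarith

lemma ori_zbc (hz : z ∈ K0 1) (hb : b ∈ K0 0) (hc : c ∈ K0 2) : 0 < cross (b - z) (c - z) := by
  obtain ⟨⟨z1, z2⟩, z3, z4⟩ := (mem_K0 hz).2.1 rfl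
  obtain ⟨⟨c1, c2⟩, c3, c4⟩ := (mem_K0 hc).2.2.1 rfl
  obtain ⟨⟨b1, b2⟩, b3, b4⟩ := (mem_K0 hb).1 rfl
  simp only [cross, Prod.fst_sub, Prod.snd_sub]
  -- (b.1 - z.1) (c.2 - z.2) - (b.2 - z.2) (c.1 - z.1)
  have h1 : (z.1 - b.1) * (c.2 - z.2) ≤ 42 * 42 :=
    mul_le_mul (by linarith) (by linarith) (by linarith) (by norm_num)
  have h2 : 98 * 118 ≤ (z.2 - b.2) * (c.1 - z.1) :=
    mul_le_mul (by linarith) (by linarith) (by norm_num) (by linarith)
  nlinarith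

lemma ori_zca (hz : z ∈ K0 1) (hc : c ∈ K0 2) (ha : a ∈ K0 3) : 0 < cross (c - z) (a - z) := by
  obtain ⟨⟨z1, z2⟩, z3, z4⟩ := (mem_K0 hz).2.1 rfl
  obtain ⟨⟨c1, c2⟩, c3, c4⟩ := (mem_K0 hc).2.2.1 rfl
  obtain ⟨⟨a1, a2⟩, a3, a4⟩ := (mem_K0 ha).2.2.2 rfl
  simp only [cross, Prod.fst_sub, Prod.snd_sub]
  have h1 : 118 * 138 ≤ (c.1 - z.1) * (a.2 - z.2) :=
    mul_le_mul (by linarith) (by linarith) (by norm_num) (by linarith)
  have h2 : 0 ≤ (z.1 - a.1) * (c.2 - z.2) := mul_nonneg (by linarith) (by linarith)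
  nlinarith

lemma ori_abc (ha : a ∈ K0 3) (hb : b ∈ K0 0) (hc : c ∈ K0 2) : 0 < cross (b - a) (c - a) := by
  obtain ⟨⟨a1, a2⟩, a3, a4⟩ := (mem_K0 ha).2.2.2 rfl
  obtain ⟨⟨c1, c2⟩, c3, c4⟩ := (mem_K0 hc).2.2.1 rfl
  obtain ⟨⟨b1, b2⟩, b3, b4⟩ := (mem_K0 hb).1 rfl
  simp only [cross, Prod.fst_sub, Prod.snd_sub]
  have h1 : 238 * 158 ≤ (a.2 - b.2) * (c.1 - a.1) :=
    mul_le_mul (by linarith) (by linarith) (by norm_num) (by linarith)
  have h2 : |(b.1 - a.1) * (c.2 - a.2)| ≤ 2 * 102 := by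
    rw [abs_mul]
    refine mul_le_mul ?_ ?_ (abs_nonneg _) (by norm_num) <;> rw [abs_le] <;> constructor <;> linarith
  have h3 := (abs_le.1 h2).1
  nlinarith

end base

lemma ray_par {V D E p q s u : Pt} (hp : p ∈ ray V D) (hq : q ∈ ray V D) (hs : s ∈ ray V E)
    (hu : u ∈ ray V E) : 0 ≤ cross (q - p) (s - p) * cross (q - p) (u - p) := by
  obtain ⟨a, ha, rfl⟩ := hp
  obtain ⟨b, hb, rfl⟩ := hq
  obtain ⟨t, ht, rfl⟩ := hs
  obtain ⟨w, hw, rfl⟩ := hu
  have e1 : cross (V + b • D - (V + a • D)) (V + t • E - (V + a • D)) = (b - a) * t * cross D E := by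
    simp only [cross, Prod.fst_sub, Prod.snd_sub, Prod.fst_add, Prod.snd_add, Prod.smul_fst,
      Prod.smul_snd, smul_eq_mul]
    ring
  have e2 : cross (V + b • D - (V + a • D)) (V + w • E - (V + a • D)) = (b - a) * w * cross D E := by
    simp only [cross, Prod.fst_sub, Prod.snd_sub, Prod.fst_add, Prod.snd_add, Prod.smul_fst,
      Prod.smul_snd, smul_eq_mul]
    ring
  rw [e1, e2, show (b - a) * t * cross D E * ((b - a) * w * cross D E) =
    (t * w) * ((b - a) * cross D E) ^ 2 by ring]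
  positivity

lemma cross_swap (p q s : Pt) : cross (q - p) (s - p) = -cross (s - p) (q - p) := by
  simp only [cross]; ring
lemma cross_cyc (p q s : Pt) : cross (q - p) (s - p) = cross (s - q) (p - q) := by
  simp only [cross, Prod.fst_sub, Prod.snd_sub]; ring

lemma base_A (v : ℕ → Pt) (d e : Pt) : ¬ MeetsAll 4 1 K0 v d e := by
  intro hm
  have hm' : ∀ j, ∃ i : ℕ, ∃ x : Pt, j < 4 → i ≤ 1 ∧ x ∈ K0 j ∧ x ∈ piece 1 v d e i := by
    intro j
    by_cases hj : j < 4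
    · obtain ⟨i, hi, x, h1, h2⟩ := hm j hj
      exact ⟨i, x, fun _ => ⟨hi, h1, h2⟩⟩
    · exact ⟨0, 0, fun h => absurd h hj⟩
  choose π x C using hm'
  obtain ⟨k0, b1, b2⟩ := C 0 (by norm_num)
  obtain ⟨k1, z1, z2⟩ := C 1 (by norm_num)
  obtain ⟨k2, c1, c2⟩ := C 2 (by norm_num)
  obtain ⟨k3, a1, a2⟩ := C 3 (by norm_num)
  have o1 := ori_zab z1 a1 b1
  have o2 := ori_zbc z1 b1 c1
  have o3 := ori_zca z1 c1 a1
  have o4 := ori_abc a1 b1 c1
  have hr : ∀ i ≤ 1, ∃ D, ∀ y ∈ piece 1 v d e i, y ∈ ray (v 1) D := by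
    intro i hi
    rcases (show i = 0 ∨ i = 1 by omega) with rfl | rfl
    · exact ⟨d, fun y hy => by rwa [piece_zero (by omega)] at hy⟩
    · exact ⟨e, fun y hy => by rwa [piece_last (by omega)] at hy⟩
  -- no three on one piece
  have q1 : ¬ (π 1 = π 3 ∧ π 1 = π 0) := fun ⟨h1, h2⟩ =>
    o1.ne' (piece_collinear z2 (h1 ▸ a2) (h2 ▸ b2))
  have q2 : ¬ (π 1 = π 0 ∧ π 1 = π 2) := fun ⟨h1, h2⟩ =>
    o2.ne' (piece_collinear z2 (h1 ▸ b2) (h2 ▸ c2))
  have q3 : ¬ (π 1 = π 2 ∧ π 1 = π 3) := fun ⟨h1, h2⟩ =>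
    o3.ne' (piece_collinear z2 (h1 ▸ c2) (h2 ▸ a2))
  have q4 : ¬ (π 3 = π 0 ∧ π 3 = π 2) := fun ⟨h1, h2⟩ =>
    o4.ne' (piece_collinear a2 (h1 ▸ b2) (h2 ▸ c2))
  obtain ⟨D, hD⟩ := hr (π 1) k1
  rcases (show (π 3 = π 1 ∧ π 0 = π 2) ∨ (π 0 = π 1 ∧ π 3 = π 2) ∨ (π 2 = π 1 ∧ π 3 = π 0) by omega) with
    ⟨h1, h2⟩ | ⟨h1, h2⟩ | ⟨h1, h2⟩
  · obtain ⟨E, hE⟩ := hr (π 0) k0
    have := ray_par (hD _ z2) (hD _ (h1 ▸ a2)) (hE _ b2) (hE _ (h2 ▸ c2))
    rw [cross_swap (x 1) (x 3) (x 2)] at this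
    nlinarith [mul_pos o1 o3]
  · obtain ⟨E, hE⟩ := hr (π 2) k2
    have := ray_par (hD _ z2) (hD _ (h1 ▸ b2)) (hE _ c2) (hE _ (h2 ▸ a2))
    rw [cross_swap (x 1) (x 0) (x 3)] at this
    nlinarith [mul_pos o2 o1]
  · obtain ⟨E, hE⟩ := hr (π 0) k0
    have := ray_par (hD _ z2) (hD _ (h1 ▸ c2)) (hE _ (h2 ▸ a2)) (hE _ b2)
    rw [cross_swap (x 1) (x 2) (x 0)] at this
    nlinarith [mul_pos o3 o2]

/-- slopes between the four boxes -/
lemma base_two : ∀ i j, i < j → j < 4 → ∀ p ∈ K0 i, ∀ q ∈ K0 j,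
    1 / 4 * |q.1 - p.1| ≤ q.2 - p.2 ∧ 0 < q.2 - p.2 := by
  intro i j hij hj p hp q hq
  have hp' := mem_K0 hp
  have hq' := mem_K0 hq
  rcases (show (i = 0 ∧ j = 1) ∨ (i = 0 ∧ j = 2) ∨ (i = 0 ∧ j = 3) ∨ (i = 1 ∧ j = 2) ∨ (i = 1 ∧ j = 3) ∨
    (i = 2 ∧ j = 3) by omega) with ⟨h1, h2⟩ | ⟨h1, h2⟩ | ⟨h1, h2⟩ | ⟨h1, h2⟩ | ⟨h1, h2⟩ | ⟨h1, h2⟩
  · obtain ⟨⟨p1, p2⟩, p3, p4⟩ := hp'.1 h1
    obtain ⟨⟨q1, q2⟩, q3, q4⟩ := hq'.2.1 h2
    have : |q.1 - p.1| ≤ 42 := by rw [abs_le]; constructor <;> linarith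
    constructor <;> linarith
  · obtain ⟨⟨p1, p2⟩, p3, p4⟩ := hp'.1 h1
    obtain ⟨⟨q1, q2⟩, q3, q4⟩ := hq'.2.2.1 h2
    have : |q.1 - p.1| ≤ 162 := by rw [abs_le]; constructor <;> linarith
    constructor <;> linarith
  · obtain ⟨⟨p1, p2⟩, p3, p4⟩ := hp'.1 h1
    obtain ⟨⟨q1, q2⟩, q3, q4⟩ := hq'.2.2.2 h2
    have : |q.1 - p.1| ≤ 2 := by rw [abs_le]; constructor <;> linarith
    constructor <;> linarith
  · obtain ⟨⟨p1, p2⟩, p3, p4⟩ := hp'.2.1 h1
    obtain ⟨⟨q1, q2⟩, q3, q4⟩ := hq'.2.2.1 h2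
    have : |q.1 - p.1| ≤ 122 := by rw [abs_le]; constructor <;> linarith
    constructor <;> linarith
  · obtain ⟨⟨p1, p2⟩, p3, p4⟩ := hp'.2.1 h1
    obtain ⟨⟨q1, q2⟩, q3, q4⟩ := hq'.2.2.2 h2
    have : |q.1 - p.1| ≤ 42 := by rw [abs_le]; constructor <;> linarith
    constructor <;> linarith
  · obtain ⟨⟨p1, p2⟩, p3, p4⟩ := hp'.2.2.1 h1
    obtain ⟨⟨q1, q2⟩, q3, q4⟩ := hq'.2.2.2 h2
    have : |q.1 - p.1| ≤ 162 := by rw [abs_le]; constructor <;> linarith
    constructor <;> linarith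

lemma base_three : ∀ i j l, i < j → j < l → l < 4 → ∀ p ∈ K0 i, ∀ q ∈ K0 j, ∀ s ∈ K0 l,
    cross (q - p) (s - p) ≠ 0 := by
  intro i j l hij hjl hl p hp q hq s hs
  rcases (show (i = 0 ∧ j = 1 ∧ l = 2) ∨ (i = 0 ∧ j = 1 ∧ l = 3) ∨ (i = 0 ∧ j = 2 ∧ l = 3) ∨
    (i = 1 ∧ j = 2 ∧ l = 3) by omega) with ⟨rfl, rfl, rfl⟩ | ⟨rfl, rfl, rfl⟩ | ⟨rfl, rfl, rfl⟩ | ⟨rfl, rfl, rfl⟩
  · -- b z c
    have := ori_zbc hq hp hs
    rw [cross_cyc p q s, cross_swap]
    exact (neg_lt_zero.2 this).ne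
  · -- b z a
    have := ori_zab hq hs hp
    rw [cross_cyc p q s]; exact this.ne'
  · -- b c a
    have := ori_abc hs hp hq
    rw [cross_cyc p q s, cross_cyc q s p]; exact this.ne'
  · exact (ori_zca hp hq hs).ne'

/-- a direction which is nearly horizontal points to the right of the line `p q` -/
lemma dir_side {p q D : Pt} (h1 : 1 / 4 * |q.1 - p.1| ≤ q.2 - p.2) (h2 : 0 < q.2 - p.2) (hD : 0 < D.1)
    (hD2 : |D.2| ≤ 1 / 8 * D.1) : cross (q - p) D < 0 := by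
  simp only [cross, Prod.fst_sub, Prod.snd_sub]
  have h3 : (q.1 - p.1) * D.2 ≤ |q.1 - p.1| * |D.2| := by
    rw [← abs_mul]; exact le_abs_self _
  have h4 : |q.1 - p.1| * |D.2| ≤ 4 * (q.2 - p.2) * (1 / 8 * D.1) := by
    refine mul_le_mul (by linarith) hD2 (abs_nonneg _) (by linarith)
  have h5 : 0 < (q.2 - p.2) * D.1 := mul_pos h2 hD
  linarith

lemma base_B (v : ℕ → Pt) (d e : Pt) (d1 : 0 < d.1) (d2 : |hgt 0 d| ≤ 1 / 8 * d.1) (e1 : 0 < e.1)
    (e2 : |hgt 0 e| ≤ 1 / 8 * e.1) : ¬ MeetsAll 4 2 K0 v d e := by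
  intro hm
  have hz : ∀ y : Pt, hgt 0 y = y.2 := fun y => by simp [hgt]
  rw [hz] at d2 e2
  have hm' : ∀ j, ∃ i : ℕ, ∃ x : Pt, j < 4 → i ≤ 2 ∧ x ∈ K0 j ∧ x ∈ piece 2 v d e i := by
    intro j
    by_cases hj : j < 4
    · obtain ⟨i, hi, x, h1, h2⟩ := hm j hj
      exact ⟨i, x, fun _ => ⟨hi, h1, h2⟩⟩
    · exact ⟨0, 0, fun h => absurd h hj⟩
  choose π x C using hm'
  have hends : ∀ a b, a < b → b < 4 → π a = π b → π a ≠ 0 ∧ π a ≠ 2 := by
    intro a b ab hb eab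
    obtain ⟨-, aK, ap⟩ := C a (by omega)
    obtain ⟨-, bK, bp⟩ := C b hb
    rw [← eab] at bp
    obtain ⟨h4, h5⟩ := base_two a b ab hb _ aK _ bK
    have h4' : 1 / 4 * |(x b).1 - (x a).1| ≤ |hgt 0 (x b) - hgt 0 (x a)| := by
      rw [hz, hz]; exact h4.trans (le_abs_self _)
    have h5' : hgt 0 (x a) ≠ hgt 0 (x b) := by
      rw [hz, hz]; intro h; rw [h] at h5; simp at h5
    constructor
    · intro h0
      rw [h0, piece_zero (by omega)] at ap bp
      exact ray_one (ω' := 0) (by norm_num : (1 / 8 : ℝ) < 1 / 4) ap bp d1 (by rw [hz]; exact d2) h4' h5'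
    · intro h0
      rw [h0, piece_last (by omega)] at ap bp
      exact ray_one (ω' := 0) (by norm_num : (1 / 8 : ℝ) < 1 / 4) ap bp e1 (by rw [hz]; exact e2) h4' h5'
  have h3 : ∀ a b c, a < b → b < c → c < 4 → π a = π b → π b = π c → False := by
    intro a b c ab bc hc e1 e2
    obtain ⟨-, a1, a2⟩ := C a (by omega)
    obtain ⟨-, b1, b2⟩ := C b (by omega)
    obtain ⟨-, c1, c2⟩ := C c hc
    rw [← e2, ← e1] at c2
    rw [← e1] at b2
    exact base_three a b c ab bc hc _ a1 _ b1 _ c1 (piece_collinear a2 b2 c2)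
  obtain ⟨-, -, pr⟩ := count_ends (m := 1) (f := π) (fun j hj => (C j (by omega)).1)
    (fun a b c h1 h2 h4 => h3 a b c h1 h2 (by omega)) (fun a b h1 h2 h4 => hends a b h1 (by omega) h4)
  obtain ⟨p, q, pq, hq, ep, eq, hall⟩ := pr 1 le_rfl le_rfl
  obtain ⟨-, pK, pp⟩ := C p (by omega)
  obtain ⟨-, qK, qp⟩ := C q (by omega)
  rw [ep] at pp
  rw [eq] at qp
  obtain ⟨s1, s2⟩ := base_two p q pq (by omega) _ pK _ qK
  have hne : x p ≠ x q := by
    intro h; rw [h] at s2; simp at s2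
  have v1 : v 1 ∈ piece 2 v d e 1 := turn_mem_right (by omega) (by omega) v d e
  have v2 : v 2 ∈ piece 2 v d e 1 := turn_mem_left (i := 1) (by omega) v d e
  -- the remaining points are to the right of the line through `x p` and `x q`
  have hray : ∀ s < 4, s ≠ p → s ≠ q → (x s ∈ ray (v 1) d ∨ x s ∈ ray (v 2) e) := by
    intro s hs h1 h2
    obtain ⟨sk, sK, sp⟩ := C s hs
    have : π s ≠ 1 := by
      intro h
      rcases hall s (by omega) h with h4 | h4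
      · exact h1 h4
      · exact h2 h4
    rcases (show π s = 0 ∨ π s = 2 by omega) with h | h
    · rw [h, piece_zero (by omega)] at sp; exact Or.inl sp
    · rw [h, piece_last (by omega)] at sp; exact Or.inr sp
  have side : ∀ V D y : Pt, V ∈ piece 2 v d e 1 → 0 < D.1 → |D.2| ≤ 1 / 8 * D.1 → y ∈ ray V D →
      cross (x q - x p) (y - x p) ≤ 0 := by
    intro V D y hV hD hD2 hy
    obtain ⟨τ, hτ⟩ := piece_param pp qp hV hne
    obtain ⟨t, ht, rfl⟩ := hy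
    have h4 := dir_side s1 s2 hD hD2
    have h5 : cross (x q - x p) (V + t • D - x p) = t * cross (x q - x p) D := by
      rw [hτ]
      simp only [cross, Prod.fst_sub, Prod.snd_sub, Prod.fst_add, Prod.snd_add, Prod.smul_fst,
        Prod.smul_snd, smul_eq_mul]
      ring
    rw [h5]
    exact mul_nonpos_of_nonneg_of_nonpos ht h4.le
  have hside : ∀ s < 4, s ≠ p → s ≠ q → cross (x q - x p) (x s - x p) ≤ 0 := by
    intro s hs h1 h2
    rcases hray s hs h1 h2 with h | h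
    · exact side _ _ _ v1 d1 d2 h
    · exact side _ _ _ v2 e1 e2 h
  obtain ⟨-, b1, -⟩ := C 0 (by norm_num)
  obtain ⟨-, z1, -⟩ := C 1 (by norm_num)
  obtain ⟨-, c1, -⟩ := C 2 (by norm_num)
  obtain ⟨-, a1, -⟩ := C 3 (by norm_num)
  have o1 := ori_zab z1 a1 b1
  have o2 := ori_zbc z1 b1 c1
  have o3 := ori_zca z1 c1 a1
  rcases (show (p = 0 ∧ q = 1) ∨ (p = 0 ∧ q = 2) ∨ (p = 0 ∧ q = 3) ∨ (p = 1 ∧ q = 2) ∨ (p = 1 ∧ q = 3) ∨
    (p = 2 ∧ q = 3) by omega) with ⟨rfl, rfl⟩ | ⟨rfl, rfl⟩ | ⟨rfl, rfl⟩ | ⟨rfl, rfl⟩ | ⟨rfl, rfl⟩ | ⟨rfl, rfl⟩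
  · have := hside 3 (by norm_num) (by norm_num) (by norm_num)
    rw [cross_cyc (x 0) (x 1) (x 3)] at this
    linarith
  · have := hside 1 (by norm_num) (by norm_num) (by norm_num)
    rw [cross_cyc (x 0) (x 2) (x 1), cross_cyc (x 2) (x 1) (x 0)] at this
    linarith
  · -- the left side of the triangle
    have key : ∀ V W D : Pt, 0 < D.1 → |D.2| ≤ 1 / 8 * D.1 → x 1 ∈ ray V D →
        x 0 ∈ segment ℝ V W → x 3 ∈ segment ℝ V W → False := by
      intro V W D hD hD2 hz1 h0 h4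
      obtain ⟨t, ht, hzt⟩ := hz1
      obtain ⟨α, α0, -, h0'⟩ := segment_param h0
      obtain ⟨β, β0, -, h4'⟩ := segment_param h4
      obtain ⟨m1, m2⟩ := base_two 0 1 (by norm_num) (by norm_num) _ b1 _ z1
      obtain ⟨m3, m4⟩ := base_two 1 3 (by norm_num) (by norm_num) _ z1 _ a1
      have l1 := dir_side m1 m2 hD hD2
      have l2 := dir_side m3 m4 hD hD2
      have r1 : cross (x 1 - x 0) D = α * cross D (W - V) := by
        rw [h0', hzt]
        simp only [cross, Prod.fst_sub, Prod.snd_sub, Prod.fst_add, Prod.snd_add, Prod.smul_fst,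
          Prod.smul_snd, smul_eq_mul]
        ring
      have r2 : cross (x 3 - x 1) D = -(β * cross D (W - V)) := by
        rw [h4', hzt]
        simp only [cross, Prod.fst_sub, Prod.snd_sub, Prod.fst_add, Prod.snd_add, Prod.smul_fst,
          Prod.smul_snd, smul_eq_mul]
        ring
      rw [r1] at l1
      rw [r2] at l2
      rcases le_total 0 (cross D (W - V)) with h | h
      · have := mul_nonneg α0 h; linarith
      · have := mul_nonpos_of_nonneg_of_nonpos β0 h; linarith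
    rw [piece_mid (by omega) (by omega)] at pp qp
    rcases hray 1 (by norm_num) (by norm_num) (by norm_num) with h | h
    · exact key (v 1) (v 2) d d1 d2 h pp qp
    · rw [segment_symm] at pp qp
      exact key (v 2) (v 1) e e1 e2 h pp qp
  · have := hside 3 (by norm_num) (by norm_num) (by norm_num)
    linarith
  · have := hside 0 (by norm_num) (by norm_num) (by norm_num)
    linarith
  · have := hside 1 (by norm_num) (by norm_num) (by norm_num)
    rw [cross_cyc (x 2) (x 3) (x 1), cross_cyc (x 3) (x 1) (x 2)] at this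
    linarith

theorem base : Good 1 K0 0 200 (1 / 4) (1 / 8) := by
  have hz : ∀ y : Pt, hgt 0 y = y.2 := fun y => by simp [hgt]
  constructor
  · norm_num
  · norm_num
  · norm_num
  · norm_num
  · intro j _
    unfold K0
    split_ifs <;> exact box_open _ _ _
  · intro j _
    unfold K0
    split_ifs <;> exact box_pre _ _ _
  · intro j _
    unfold K0
    split_ifs <;> exact box_nonempty _ _ _
  · intro j hj p hp
    rw [hz]
    have h := mem_K0 hp
    rcases (show j = 0 ∨ j = 1 ∨ j = 2 ∨ j = 3 by omega) with h1 | h1 | h1 | h1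
    · obtain ⟨⟨p1, p2⟩, p3, p4⟩ := h.1 h1
      constructor <;> rw [abs_le] <;> constructor <;> linarith
    · obtain ⟨⟨p1, p2⟩, p3, p4⟩ := h.2.1 h1
      constructor <;> rw [abs_le] <;> constructor <;> linarith
    · obtain ⟨⟨p1, p2⟩, p3, p4⟩ := h.2.2.1 h1
      constructor <;> rw [abs_le] <;> constructor <;> linarith
    · obtain ⟨⟨p1, p2⟩, p3, p4⟩ := h.2.2.2 h1
      constructor <;> rw [abs_le] <;> constructor <;> linarith
  · intro i j hij hj p hp q hq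
    obtain ⟨h1, h2⟩ := base_two i j hij (by omega) p hp q hq
    rw [hz, hz]
    exact ⟨h1.trans (le_abs_self _), fun h => by rw [h] at h2; simp at h2⟩
  · intro i j l hij hjl hl
    exact base_three i j l hij hjl (by omega)
  · exact base_A
  · exact base_B

theorem exists_good {n : ℕ} (hn : 1 ≤ n) : ∃ K ω r σ η, Good n K ω r σ η := by
  induction n, hn using Nat.le_induction with
  | base => exact ⟨_, _, _, _, _, base⟩
  | succ n hn ih =>
    obtain ⟨K, ω, r, σ, η, H⟩ := ih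
    exact step hn H

/-! ### measures -/

lemma extend_one (k : ℕ) (v : ℕ → Pt) (d e : Pt) :
    ∃ v' d' e', ∀ x ∈ path k v d e, x ∈ path (k + 1) v' d' e' := by
  rcases Nat.eq_zero_or_pos k with rfl | hk
  · refine ⟨fun _ => v 0, d, -d, ?_⟩
    rintro x ⟨i, hi, hx⟩
    have hx' : x ∈ line (v 0) d := by simpa [piece] using hx
    obtain ⟨t, rfl⟩ := hx'
    rcases le_total 0 t with h | h
    · refine ⟨0, by omega, ?_⟩
      rw [piece_zero (by omega)]
      exact ⟨t, h, rfl⟩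
    · refine ⟨1, le_rfl, ?_⟩
      rw [piece_last (by omega)]
      exact ⟨-t, by linarith, by simp⟩
  · refine ⟨fun j => if j = k + 1 then v k else v j, d, e, ?_⟩
    rintro x ⟨i, hi, hx⟩
    rcases hi.eq_or_lt with rfl | hlt
    · rw [piece_last (by omega)] at hx
      refine ⟨i + 1, le_rfl, ?_⟩
      rw [piece_last (by omega)]
      simpa using hx
    · refine ⟨i, by omega, ?_⟩
      rcases Nat.eq_zero_or_pos i with rfl | h0
      · rw [piece_zero (by omega)] at hx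
        rw [piece_zero (by omega)]
        have : ¬ (1 = k + 1) := by omega
        have h2 : ¬ (k = 0) := by omega
        simpa [this, h2] using hx
      · rw [piece_mid (by omega) hlt] at hx
        rw [piece_mid (by omega) (by omega)]
        have e1 : ¬ (i = k + 1) := by omega
        have e2 : ¬ (i = k) := by omega
        simpa [e1, e2] using hx

lemma extend {k n : ℕ} (hk : k ≤ n) (v : ℕ → Pt) (d e : Pt) :
    ∃ v' d' e', ∀ x ∈ path k v d e, x ∈ path n v' d' e' := by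
  induction n, hk using Nat.le_induction with
  | base => exact ⟨v, d, e, fun x hx => hx⟩
  | succ n hn ih =>
    obtain ⟨v', d', e', h⟩ := ih
    obtain ⟨v'', d'', e'', h2⟩ := extend_one n v' d' e'
    exact ⟨v'', d'', e'', fun x hx => h2 x (h x hx)⟩

lemma bounded_finite {S : Set Pt} {ω r : ℝ} (h : ∀ p ∈ S, |p.1| ≤ r ∧ |hgt ω p| ≤ r) :
    volume S < ⊤ := by
  have hsub : S ⊆ Set.Icc (-r) r ×ˢ Set.Icc (-(r + |ω| * r)) (r + |ω| * r) := by
    intro p hp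
    obtain ⟨h1, h2⟩ := h p hp
    have e1 : p.2 = hgt ω p + ω * p.1 := by simp [hgt]
    have h3 : |p.2| ≤ r + |ω| * r := by
      rw [e1]
      calc |hgt ω p + ω * p.1| ≤ |hgt ω p| + |ω * p.1| := abs_add_le _ _
        _ = |hgt ω p| + |ω| * |p.1| := by rw [abs_mul]
        _ ≤ r + |ω| * r := add_le_add h2 (mul_le_mul_of_nonneg_left h1 (abs_nonneg _))
    exact ⟨abs_le.1 h1, abs_le.1 h3⟩
  exact lt_of_le_of_lt (measure_mono hsub) (isCompact_Icc.prod isCompact_Icc).measure_lt_top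

/-- `m(n) ≤ 2 n + 1` -/
theorem upper_bound {n : ℕ} (hn : 1 ≤ n) {m : ℕ} (h : AlwaysSplit n m) : m ≤ 2 * n + 1 := by
  by_contra hm
  push Not at hm
  obtain ⟨K, ω, r, σ, η, H⟩ := exists_good hn
  obtain ⟨k, hk, v, d, e, -, -, c, hc, hs⟩ := h
    (fun i => if (i : ℕ) < 2 * n + 2 then volume.restrict (K i) else 0)
    (fun i => by
      by_cases hi : (i : ℕ) < 2 * n + 2
      · simp only [hi, if_pos]
        constructor
        rw [Measure.restrict_apply_univ]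
        exact bounded_finite (H.bd i hi)
      · simp only [hi, if_false]
        infer_instance)
    (fun i => by
      by_cases hi : (i : ℕ) < 2 * n + 2
      · simp only [hi, if_pos]
        exact Measure.restrict_le_self.absolutelyContinuous
      · simp only [hi, if_false]
        exact Measure.AbsolutelyContinuous.zero _)
  obtain ⟨v', d', e', hext⟩ := extend hk v d e
  have hA := H.A v' d' e'
  unfold MeetsAll at hA
  push Not at hA
  obtain ⟨j, hj, hmiss⟩ := hA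
  have hdis : ∀ x ∈ K j, x ∉ path k v d e := by
    intro x hx hp
    obtain ⟨i, hi, hxi⟩ := hext x hp
    exact hmiss i hi x hx hxi
  obtain ⟨x0, hx0⟩ := H.ne j hj
  have hconst := hc.const (K j) (H.pre j hj) hdis x0 hx0
  have h1 := hs ⟨j, by omega⟩ (!c x0)
  simp only [hj, if_true] at h1
  rw [Measure.restrict_apply' (H.opn j hj).measurableSet, Measure.restrict_apply_univ] at h1
  have h2 : {x | x ∉ path k v d e ∧ c x = !c x0} ∩ K j = ∅ := by
    ext x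
    simp only [Set.mem_inter_iff, Set.mem_ofPred_eq, Set.mem_empty_iff_false, iff_false]
    rintro ⟨⟨-, h3⟩, h4⟩
    have h5 := hconst x h4
    rw [← h5] at h3
    cases hcx : c x0 <;> rw [hcx] at h3 <;> simp at h3
  rw [h2, measure_empty] at h1
  have h3 : 0 < volume (K j) := (H.opn j hj).measure_pos volume ⟨x0, hx0⟩
  have h4 : volume (K j) / 2 ≠ 0 := by
    intro h5
    rw [ENNReal.div_eq_zero_iff] at h5
    rcases h5 with h5 | h5
    · exact h3.ne' h5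
    · norm_num at h5
  exact h4 h1.symm

end MPde2e60
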