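import Pool.Agent.Lib.MP_de2e60_co.Geo

/-!
The numerical facts: which lines can meet to the right of the old sets.
-/

set_option autoImplicit false

namespace MPde2e60

section param
variable {ω τ : ℝ} {p q w : Pt}

lemma param_fst (hw : w = p + τ • (q - p)) : w.1 - p.1 = τ * (q.1 - p.1) := by
  rw [hw]; simp only [Prod.fst_add, Prod.smul_fst, Prod.fst_sub, smul_eq_mul]; ring
lemma param_hgt (hw : w = p + τ • (q - p)) : hgt ω w - hgt ω p = τ * (hgt ω q - hgt ω p) := by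
  rw [hw, hgt_add, hgt_smul, hgt_sub]; ring

/-- lower bound of the slope is transported -/
lemma slope_lower {σ : ℝ} (hw : w = p + τ • (q - p)) (h : σ * |q.1 - p.1| ≤ |hgt ω q - hgt ω p|) :
    σ * |w.1 - p.1| ≤ |hgt ω w - hgt ω p| := by
  rw [param_fst hw, param_hgt hw, abs_mul, abs_mul]
  have := mul_le_mul_of_nonneg_left h (abs_nonneg τ)
  calc σ * (|τ| * |q.1 - p.1|) = |τ| * (σ * |q.1 - p.1|) := by ring
    _ ≤ _ := this

/-- upper bound of the slope is transported -/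
lemma slope_upper {A B : ℝ} (_ : 0 ≤ B) (hw : w = p + τ • (q - p)) (hA : A ≤ |q.1 - p.1|)
    (h : |hgt ω q - hgt ω p| ≤ B) : A * |hgt ω w - hgt ω p| ≤ B * |w.1 - p.1| := by
  rw [param_fst hw, param_hgt hw, abs_mul, abs_mul]
  have h1 : A * |hgt ω q - hgt ω p| ≤ B * |q.1 - p.1| := by
    have a1 := abs_nonneg (q.1 - p.1)
    have a2 := abs_nonneg (hgt ω q - hgt ω p)
    calc A * |hgt ω q - hgt ω p| ≤ |q.1 - p.1| * |hgt ω q - hgt ω p| :=
          mul_le_mul_of_nonneg_right hA a2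
      _ ≤ |q.1 - p.1| * B := mul_le_mul_of_nonneg_left h a1
      _ = _ := by ring
  have := mul_le_mul_of_nonneg_left h1 (abs_nonneg τ)
  calc A * (|τ| * |hgt ω q - hgt ω p|) = |τ| * (A * |hgt ω q - hgt ω p|) := by ring
    _ ≤ _ := this
    _ = _ := by ring

end param

/-- properties of points on a line through two old sets -/
def PI (ω r σ : ℝ) (w : Pt) : Prop := σ * (|w.1| - r) ≤ |hgt ω w| + r
/-- properties of points on a line through `G` and `F` -/
def PT (ω r σ M : ℝ) (w : Pt) : Prop := M + r ≤ w.1 → |hgt ω w| ≤ 1 + σ / 2 * (w.1 - M - r + 2)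
/-- properties of points on a line through an old set and `G` -/
def PG (ω r M : ℝ) (w : Pt) : Prop := r ≤ w.1 → M * (|hgt ω w| - r) ≤ (r + 1) * (w.1 + r)
/-- properties of points on a line through an old set and `F` -/
def PF (ω r M : ℝ) (w : Pt) : Prop := r ≤ w.1 → M * (|hgt ω w| - r) ≤ 9 * (r + 1) * (w.1 + r) ∧
  7 * (r + 1) * (w.1 - r) ≤ 2 * M * (hgt ω w + r)

/-- the numerical conditions -/
structure Num (r σ η M δ : ℝ) : Prop where
  r1 : 1 ≤ r
  σ0 : 0 < σ
  σ1 : σ ≤ 1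
  η0 : 0 < η
  δe : σ * δ = 32 * (r + 1)
  M1 : 1 ≤ M
  m1 : δ + 2 * r + 2 ≤ M
  m2 : 4 * r ^ 2 + 4 * r < M
  m3 : (11 * r + 9) + 18 * r * (r + 1) < σ * M
  m6 : (r + 1) * (δ + 2) < M
  m7 : 9 * (r + 1) ≤ η * M

section facts
variable {ω r σ η M δ : ℝ}

lemma Num.δ64 (N : Num r σ η M δ) : 64 ≤ δ := by
  have h1 := N.δe
  have h2 := N.σ1
  have h3 := N.r1
  have h4 := N.σ0
  by_contra hc
  push Not at hc
  nlinarith

lemma factIT (N : Num r σ η M δ) {w : Pt} (h1 : PI ω r σ w) (h2 : PT ω r σ M w) : w.1 < M + r := by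
  by_contra hc
  push Not at hc
  have hr := N.r1
  have hM := N.M1
  have h3 := h2 hc
  have h4 : |w.1| = w.1 := abs_of_nonneg (by linarith)
  unfold PI at h1
  rw [h4] at h1
  have m3 := N.m3
  have σ0 := N.σ0
  have σ1 := N.σ1
  have m2 := N.m2
  -- σ (w - r) ≤ 1 + σ/2 (w - M - r + 2) + r
  have h5 : σ * (w.1 - r) ≤ 1 + σ / 2 * (w.1 - M - r + 2) + r := by linarith
  have h6 : σ * (M + r) ≤ σ * w.1 := mul_le_mul_of_nonneg_left hc σ0.le
  nlinarith

lemma quad_aux (N : Num r σ η M δ) {x : ℝ} (hx : M + r ≤ x)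
    (h : M * (σ * (x - r) - 2 * r) ≤ 9 * (r + 1) * (x + r)) : False := by
  have hr := N.r1
  have hM := N.M1
  have m3 := N.m3
  have σ0 := N.σ0
  -- write x = M + r + y with y ≥ 0
  obtain ⟨y, rfl⟩ : ∃ y, x = M + r + y := ⟨x - M - r, by ring⟩
  have hy : 0 ≤ y := by linarith
  -- M (σ (M + y) - 2 r) ≤ 9 (r+1) (M + 2 r + y)
  have h1 : M * ((11 * r + 9) + 18 * r * (r + 1)) ≤ M * (σ * M) :=
    mul_le_mul_of_nonneg_left m3.le (by linarith)
  have h2 : y * ((11 * r + 9) + 18 * r * (r + 1)) ≤ y * (σ * M) :=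
    mul_le_mul_of_nonneg_left m3.le hy
  have h3 : M * ((11 * r + 9) + 18 * r * (r + 1)) < M * (σ * M) :=
    mul_lt_mul_of_pos_left m3 (by linarith)
  have h4 : 0 ≤ y * (2 * r + 18 * r * (r + 1)) := by positivity
  have h5 : 18 * r * (r + 1) ≤ M * (18 * r * (r + 1)) :=
    le_mul_of_one_le_left (by positivity) hM
  nlinarith

lemma factIF_aux (N : Num r σ η M δ) {w : Pt} (h1 : PI ω r σ w)
    (h2 : r ≤ w.1 → M * (|hgt ω w| - r) ≤ 9 * (r + 1) * (w.1 + r)) : w.1 < M + r := by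
  by_contra hc
  push Not at hc
  have hr := N.r1
  have hM := N.M1
  have h3 := h2 (by linarith)
  have h4 : |w.1| = w.1 := abs_of_nonneg (by linarith)
  unfold PI at h1
  rw [h4] at h1
  refine quad_aux N hc ?_
  have h5 : σ * (w.1 - r) - 2 * r ≤ |hgt ω w| - r := by linarith
  have h6 := mul_le_mul_of_nonneg_left h5 (show 0 ≤ M by linarith)
  linarith

lemma factIF (N : Num r σ η M δ) {w : Pt} (h1 : PI ω r σ w) (h2 : PF ω r M w) : w.1 < M + r :=
  factIF_aux N h1 fun h => (h2 h).1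

lemma factIG (N : Num r σ η M δ) {w : Pt} (h1 : PI ω r σ w) (h2 : PG ω r M w) : w.1 < M + r := by
  refine factIF_aux N h1 fun h => (h2 h).trans ?_
  have hr := N.r1
  have : 0 ≤ (r + 1) * (w.1 + r) := by
    have : 0 ≤ w.1 + r := by linarith
    positivity
  linarith

lemma factGF (N : Num r σ η M δ) {w : Pt} (h1 : PG ω r M w) (h2 : PF ω r M w) : w.1 < M + r := by
  by_contra hc
  push Not at hc
  have hr := N.r1
  have hM := N.M1
  have m2 := N.m2
  have h3 := h1 (by linarith)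
  have h4 := (h2 (by linarith)).2
  have h5 := le_abs_self (hgt ω w)
  have h6 : M * (hgt ω w - r) ≤ M * (|hgt ω w| - r) :=
    mul_le_mul_of_nonneg_left (by linarith) (by linarith)
  have h7 : (r + 1) * (M + r) ≤ (r + 1) * w.1 := mul_le_mul_of_nonneg_left hc (by linarith)
  nlinarith

end facts

end MPde2e60
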