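import Pool.Agent.Lib.MP_de2e60_co.Slopes

/-!
The induction step.
-/

set_option autoImplicit false

namespace MPde2e60

/-- an open parallelogram -/
def box (ω x y : ℝ) : Set Pt := {p | (x - 1 < p.1 ∧ p.1 < x + 1) ∧ y - 1 < hgt ω p ∧ hgt ω p < y + 1}

lemma hgt_cont (ω : ℝ) : Continuous (hgt ω) := by unfold hgt; fun_prop

lemma box_open (ω x y : ℝ) : IsOpen (box ω x y) :=
  ((isOpen_lt continuous_const continuous_fst).inter (isOpen_lt continuous_fst continuous_const)).inter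
    ((isOpen_lt continuous_const (hgt_cont ω)).inter (isOpen_lt (hgt_cont ω) continuous_const))

lemma box_pre (ω x y : ℝ) : IsPreconnected (box ω x y) := by
  have l1 : IsLinearMap ℝ (fun p : Pt => p.1) := ⟨fun _ _ => rfl, fun _ _ => rfl⟩
  have l2 : IsLinearMap ℝ (fun p : Pt => hgt ω p) := ⟨hgt_add ω, fun t p => hgt_smul ω t p⟩
  exact (((convex_halfSpace_gt l1 _).inter (convex_halfSpace_lt l1 _)).inter
    ((convex_halfSpace_gt l2 _).inter (convex_halfSpace_lt l2 _))).isPreconnected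

lemma box_nonempty (ω x y : ℝ) : (box ω x y).Nonempty := by
  refine ⟨(x, y + ω * x), ?_⟩
  have e1 : hgt ω (x, y + ω * x) = y := by simp [hgt]
  have e2 : ((x, y + ω * x) : Pt).1 = x := rfl
  refine ⟨⟨?_, ?_⟩, ?_, ?_⟩
  · rw [e2]; linarith
  · rw [e2]; linarith
  · rw [e1]; linarith
  · rw [e1]; linarith

/-- the induction hypothesis -/
structure Good (n : ℕ) (K : ℕ → Set Pt) (ω r σ η : ℝ) : Prop where
  r1 : 1 ≤ r
  σ0 : 0 < σ
  σ1 : σ ≤ 1
  η0 : 0 < η
  opn : ∀ j < 2 * n + 2, IsOpen (K j)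
  pre : ∀ j < 2 * n + 2, IsPreconnected (K j)
  ne : ∀ j < 2 * n + 2, (K j).Nonempty
  bd : ∀ j < 2 * n + 2, ∀ p ∈ K j, |p.1| ≤ r ∧ |hgt ω p| ≤ r
  two : ∀ i j, i < j → j < 2 * n + 2 → ∀ p ∈ K i, ∀ q ∈ K j,
    σ * |q.1 - p.1| ≤ |hgt ω q - hgt ω p| ∧ hgt ω p ≠ hgt ω q
  three : ∀ i j l, i < j → j < l → l < 2 * n + 2 → ∀ p ∈ K i, ∀ q ∈ K j, ∀ s ∈ K l,
    cross (q - p) (s - p) ≠ 0
  A : ∀ (v : ℕ → Pt) (d e : Pt), ¬ MeetsAll (2 * n + 2) n K v d e
  B : ∀ (v : ℕ → Pt) (d e : Pt), 0 < d.1 → |hgt ω d| ≤ η * d.1 → 0 < e.1 → |hgt ω e| ≤ η * e.1 →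
    ¬ MeetsAll (2 * n + 2) (n + 1) K v d e

/-- the new family -/
def ext (n : ℕ) (K : ℕ → Set Pt) (ω r M δ : ℝ) (j : ℕ) : Set Pt :=
  if j < 2 * n + 2 then K j else if j = 2 * n + 2 then box ω (M + r + 1) 0
  else box ω (M + r + 1 + δ) (8 * (r + 1))

section step
variable {n : ℕ} {K : ℕ → Set Pt} {ω r σ η M δ : ℝ}

lemma ext_old {j : ℕ} (hj : j < 2 * n + 2) : ext n K ω r M δ j = K j := by simp [ext, hj]

lemma mem_G {j : ℕ} (hj : j = 2 * n + 2) {g : Pt} (hg : g ∈ ext n K ω r M δ j) :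
    (M + r < g.1 ∧ g.1 < M + r + 2) ∧ -1 < hgt ω g ∧ hgt ω g < 1 := by
  subst hj
  simp only [ext, lt_irrefl, if_false, if_true] at hg
  obtain ⟨⟨h1, h2⟩, h3, h4⟩ := hg
  exact ⟨⟨by linarith, by linarith⟩, by linarith, by linarith⟩

lemma mem_F {j : ℕ} (hj : j = 2 * n + 3) {f : Pt} (hf : f ∈ ext n K ω r M δ j) :
    (M + r + δ < f.1 ∧ f.1 < M + r + δ + 2) ∧ 8 * r + 7 < hgt ω f ∧ hgt ω f < 8 * r + 9 := by
  subst hj
  have e1 : ¬ 2 * n + 3 < 2 * n + 2 := by omega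
  have e2 : ¬ 2 * n + 3 = 2 * n + 2 := by omega
  simp only [ext, e1, e2, if_false] at hf
  obtain ⟨⟨h1, h2⟩, h3, h4⟩ := hf
  exact ⟨⟨by linarith, by linarith⟩, by linarith, by linarith⟩

lemma cls_I (H : Good n K ω r σ η) {i j : ℕ} (hij : i < j) (hj : j < 2 * n + 2) {p q w : Pt} {τ : ℝ}
    (hp : p ∈ K i) (hq : q ∈ K j) (hw : w = p + τ • (q - p)) : PI ω r σ w := by
  have h1 := slope_lower hw (H.two i j hij hj p hp q hq).1
  obtain ⟨h2, h3⟩ := H.bd i (by omega) p hp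
  have h4 : |w.1| - |p.1| ≤ |w.1 - p.1| := abs_sub_abs_le_abs_sub _ _
  have h5 : |hgt ω w - hgt ω p| ≤ |hgt ω w| + |hgt ω p| := abs_sub _ _
  have h6 : σ * (|w.1| - r) ≤ σ * |w.1 - p.1| := mul_le_mul_of_nonneg_left (by linarith) H.σ0.le
  unfold PI
  linarith

lemma cls_G (H : Good n K ω r σ η) (N : Num r σ η M δ) {i j : ℕ} (hi : i < 2 * n + 2)
    (hj : j = 2 * n + 2) {z g w : Pt} {τ : ℝ} (hz : z ∈ K i) (hg : g ∈ ext n K ω r M δ j)
    (hw : w = z + τ • (g - z)) : PG ω r M w := by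
  intro hr
  obtain ⟨⟨g1, g2⟩, g3, g4⟩ := mem_G hj hg
  obtain ⟨h2, h3⟩ := H.bd i hi z hz
  have z1 := abs_le.1 h2
  have z2 := abs_le.1 h3
  have hr1 := H.r1
  have hM := N.M1
  have k1 : M ≤ |g.1 - z.1| := by
    refine le_trans ?_ (le_abs_self _); linarith
  have k2 : |hgt ω g - hgt ω z| ≤ r + 1 := by
    rw [abs_le]; constructor <;> linarith
  have h1 := slope_upper (by linarith) hw k1 k2
  have h4 : |hgt ω w| - |hgt ω z| ≤ |hgt ω w - hgt ω z| := abs_sub_abs_le_abs_sub _ _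
  have h5 : |w.1 - z.1| ≤ w.1 + r := by rw [abs_le]; constructor <;> linarith
  have h6 : M * (|hgt ω w| - r) ≤ M * |hgt ω w - hgt ω z| :=
    mul_le_mul_of_nonneg_left (by linarith) (by linarith)
  have h7 : (r + 1) * |w.1 - z.1| ≤ (r + 1) * (w.1 + r) := mul_le_mul_of_nonneg_left h5 (by linarith)
  linarith

lemma cls_F (H : Good n K ω r σ η) (N : Num r σ η M δ) {i j : ℕ} (hi : i < 2 * n + 2)
    (hj : j = 2 * n + 3) {z f w : Pt} {τ : ℝ} (hz : z ∈ K i) (hf : f ∈ ext n K ω r M δ j)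
    (hw : w = z + τ • (f - z)) : PF ω r M w := by
  intro hr
  obtain ⟨⟨f1, f2⟩, f3, f4⟩ := mem_F hj hf
  obtain ⟨h2, h3⟩ := H.bd i hi z hz
  have z1 := abs_le.1 h2
  have z2 := abs_le.1 h3
  have hr1 := H.r1
  have hM := N.M1
  have hδ := N.δ64
  have m1 := N.m1
  constructor
  · have k1 : M ≤ |f.1 - z.1| := by
      refine le_trans ?_ (le_abs_self _); linarith
    have k2 : |hgt ω f - hgt ω z| ≤ 9 * (r + 1) := by
      rw [abs_le]; constructor <;> linarith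
    have h1 := slope_upper (by linarith) hw k1 k2
    have h4 : |hgt ω w| - |hgt ω z| ≤ |hgt ω w - hgt ω z| := abs_sub_abs_le_abs_sub _ _
    have h5 : |w.1 - z.1| ≤ w.1 + r := by rw [abs_le]; constructor <;> linarith
    have h6 : M * (|hgt ω w| - r) ≤ M * |hgt ω w - hgt ω z| :=
      mul_le_mul_of_nonneg_left (by linarith) (by linarith)
    have h7 : 9 * (r + 1) * |w.1 - z.1| ≤ 9 * (r + 1) * (w.1 + r) :=
      mul_le_mul_of_nonneg_left h5 (by linarith)
    linarith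
  · have e1 := param_fst hw
    have e2 := param_hgt (ω := ω) hw
    have hfz : 0 < f.1 - z.1 := by linarith
    have hτ : 0 ≤ τ := by
      by_contra hc
      push Not at hc
      have : τ * (f.1 - z.1) < 0 := mul_neg_of_neg_of_pos hc hfz
      linarith
    have a1 : 7 * (r + 1) ≤ hgt ω f - hgt ω z := by linarith
    have a2 : f.1 - z.1 ≤ 2 * M := by linarith
    have a3 : τ * (f.1 - z.1) * (7 * (r + 1)) ≤ 2 * M * (τ * (hgt ω f - hgt ω z)) := by
      have b1 : τ * (f.1 - z.1) ≤ τ * (2 * M) := mul_le_mul_of_nonneg_left a2 hτ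
      have b2 : τ * (f.1 - z.1) * (7 * (r + 1)) ≤ τ * (2 * M) * (7 * (r + 1)) :=
        mul_le_mul_of_nonneg_right b1 (by linarith)
      have b3 : τ * (2 * M) * (7 * (r + 1)) ≤ τ * (2 * M) * (hgt ω f - hgt ω z) :=
        mul_le_mul_of_nonneg_left a1 (mul_nonneg hτ (by linarith))
      linarith
    rw [← e1, ← e2] at a3
    have a4 : 7 * (r + 1) * (w.1 - r) ≤ (w.1 - z.1) * (7 * (r + 1)) := by
      have : (w.1 - r) * (7 * (r + 1)) ≤ (w.1 - z.1) * (7 * (r + 1)) :=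
        mul_le_mul_of_nonneg_right (by linarith) (by linarith)
      linarith
    have a5 : 2 * M * (hgt ω w - hgt ω z) ≤ 2 * M * (hgt ω w + r) :=
      mul_le_mul_of_nonneg_left (by linarith) (by linarith)
    linarith

lemma cls_T (N : Num r σ η M δ) {i j : ℕ} (hi : i = 2 * n + 2)
    (hj : j = 2 * n + 3) {g f w : Pt} {τ : ℝ} (hg : g ∈ ext n K ω r M δ i) (hf : f ∈ ext n K ω r M δ j)
    (hw : w = g + τ • (f - g)) : PT ω r σ M w := by
  intro hr
  obtain ⟨⟨g1, g2⟩, g3, g4⟩ := mem_G hi hg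
  obtain ⟨⟨f1, f2⟩, f3, f4⟩ := mem_F hj hf
  have hr1 := N.r1
  have hδ := N.δ64
  have hδe := N.δe
  have σ0 := N.σ0
  have σ1 := N.σ1
  have k1 : δ - 2 ≤ |f.1 - g.1| := by
    refine le_trans ?_ (le_abs_self _); linarith
  have k2 : |hgt ω f - hgt ω g| ≤ 8 * r + 10 := by
    rw [abs_le]; constructor <;> linarith
  have h1 := slope_upper (by linarith) hw k1 k2
  have h4 : |hgt ω w| - |hgt ω g| ≤ |hgt ω w - hgt ω g| := abs_sub_abs_le_abs_sub _ _
  have h4' : |hgt ω g| ≤ 1 := by rw [abs_le]; constructor <;> linarith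
  have h5 : |w.1 - g.1| ≤ w.1 - M - r + 2 := by rw [abs_le]; constructor <;> linarith
  have h7 : (8 * r + 10) * |w.1 - g.1| ≤ (σ / 2 * (δ - 2)) * (w.1 - M - r + 2) := by
    refine mul_le_mul ?_ h5 (abs_nonneg _) ?_
    · nlinarith
    · have : 0 ≤ δ - 2 := by linarith
      positivity
  have h8 : (δ - 2) * |hgt ω w - hgt ω g| ≤ (δ - 2) * (σ / 2 * (w.1 - M - r + 2)) := by
    calc (δ - 2) * |hgt ω w - hgt ω g| ≤ (8 * r + 10) * |w.1 - g.1| := h1
      _ ≤ _ := h7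
      _ = _ := by ring
  have h9 := le_of_mul_le_mul_left h8 (by linarith : 0 < δ - 2)
  linarith

/-- no line meets three of the new sets -/
lemma three_ext (H : Good n K ω r σ η) (N : Num r σ η M δ) : ∀ i j l, i < j → j < l → l < 2 * n + 4 →
    ∀ p ∈ ext n K ω r M δ i, ∀ q ∈ ext n K ω r M δ j, ∀ s ∈ ext n K ω r M δ l,
    cross (q - p) (s - p) ≠ 0 := by
  intro i j l hij hjl hl p hp q hq s hs h0
  have hr1 := H.r1
  have hM := N.M1
  have hδ := N.δ64
  have m3 := N.m3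
  rcases lt_or_ge l (2 * n + 2) with h | h
  · rw [ext_old (by omega)] at hp hq hs
    exact H.three i j l hij hjl h p hp q hq s hs h0
  rw [ext_old (by omega)] at hp
  obtain ⟨p1, p2⟩ := H.bd i (by omega) p hp
  have z1 := abs_le.1 p1
  have z2 := abs_le.1 p2
  rcases lt_or_ge j (2 * n + 2) with hj | hj
  · -- two old sets and a new one
    rw [ext_old (by omega)] at hq
    have ne : hgt ω p ≠ hgt ω q := (H.two i j hij hj p hp q hq).2
    -- `s` is on the line through `p` and `q`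
    have hs' : M + r < s.1 ∧ |hgt ω s| ≤ 8 * r + 9 := by
      rcases (show l = 2 * n + 2 ∨ l = 2 * n + 3 by omega) with h1 | h1
      · obtain ⟨⟨g1, g2⟩, g3, g4⟩ := mem_G h1 hs
        exact ⟨g1, by rw [abs_le]; constructor <;> linarith⟩
      · obtain ⟨⟨f1, f2⟩, f3, f4⟩ := mem_F h1 hs
        exact ⟨by linarith, by rw [abs_le]; constructor <;> linarith⟩
    have hpar : s = p + ((hgt ω s - hgt ω p) / (hgt ω q - hgt ω p)) • (q - p) := by
      have hne : hgt ω q - hgt ω p ≠ 0 := sub_ne_zero.2 (Ne.symm ne)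
      rw [cross_hgt ω] at h0
      simp only [hgt_sub, Prod.fst_sub] at h0
      have e1 : s.1 = p.1 + (hgt ω s - hgt ω p) / (hgt ω q - hgt ω p) * (q.1 - p.1) := by
        field_simp
        linarith
      refine Prod.ext ?_ ?_
      · simp only [Prod.fst_add, Prod.smul_fst, Prod.fst_sub, smul_eq_mul]; exact e1
      · have e2 : hgt ω s = hgt ω p + (hgt ω s - hgt ω p) / (hgt ω q - hgt ω p) * (hgt ω q - hgt ω p) := by
          field_simp; ring
        have e3 : ∀ x : Pt, x.2 = hgt ω x + ω * x.1 := fun x => by simp [hgt]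
        rw [e3 s, e3 (p + _), hgt_add, hgt_smul, hgt_sub, ← e2]
        simp only [Prod.fst_add, Prod.smul_fst, Prod.fst_sub, smul_eq_mul]
        rw [← e1]
    have hI := cls_I H hij hj hp hq hpar
    unfold PI at hI
    have e4 : s.1 ≤ |s.1| := le_abs_self _
    have e5 : σ * M ≤ σ * (|s.1| - r) := mul_le_mul_of_nonneg_left (by linarith [hs'.1]) H.σ0.le
    have e6 := hs'.2
    nlinarith
  · -- an old set, `G` and `F`
    obtain ⟨⟨g1, g2⟩, g3, g4⟩ := mem_G (show j = 2 * n + 2 by omega) hq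
    obtain ⟨⟨f1, f2⟩, f3, f4⟩ := mem_F (show l = 2 * n + 3 by omega) hs
    rw [cross_hgt ω] at h0
    simp only [hgt_sub, Prod.fst_sub] at h0
    have e1 : (q.1 - p.1) * (hgt ω s - hgt ω q) = (hgt ω q - hgt ω p) * (s.1 - q.1) := by linarith
    have e2 : M * 1 ≤ (q.1 - p.1) * (hgt ω s - hgt ω q) :=
      mul_le_mul (by linarith) (by linarith) (by norm_num) (by linarith)
    have e3 : (hgt ω q - hgt ω p) * (s.1 - q.1) ≤ (r + 1) * (δ + 2) := by
      refine mul_le_mul (by linarith) (by linarith) (by linarith) (by linarith)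
    have := N.m6
    linarith

/-- slopes in the new family -/
lemma two_ext (H : Good n K ω r σ η) (N : Num r σ η M δ) {γ : ℝ} (hγ : γ * M = 2 * (r + 1)) :
    ∀ i j, i < j → j < 2 * n + 4 → ∀ p ∈ ext n K ω r M δ i, ∀ q ∈ ext n K ω r M δ j,
    γ / 2 * |q.1 - p.1| ≤ |hgt (ω - γ) q - hgt (ω - γ) p| ∧ hgt (ω - γ) p ≠ hgt (ω - γ) q := by
  intro i j hij hj p hp q hq
  have hr1 := H.r1
  have hM := N.M1
  have hδ := N.δ64
  have m3 := N.m3
  have σ0 := H.σ0
  have γ0 : 0 < γ := by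
    by_contra hc
    push Not at hc
    have : γ * M ≤ 0 := mul_nonpos_of_nonpos_of_nonneg hc (by linarith)
    linarith
  have γσ : 3 / 2 * γ < σ := by
    by_contra hc
    push Not at hc
    have : σ * M ≤ 3 / 2 * γ * M := mul_le_mul_of_nonneg_right hc (by linarith)
    nlinarith
  -- the case where the height goes up enough
  have gen : ∀ D E : ℝ, 0 < D → -(γ / 2 * D) ≤ E → γ / 2 * |D| ≤ |E + γ * D| ∧ E + γ * D ≠ 0 := by
    intro D E hD hE
    have h1 : 0 < γ / 2 * D := by positivity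
    have h2 : γ / 2 * D ≤ E + γ * D := by linarith
    refine ⟨?_, by linarith [h1, h2] |> fun h : 0 < E + γ * D => h.ne'⟩
    rw [abs_of_pos hD]
    exact h2.trans (le_abs_self _)
  have e0 : hgt (ω - γ) q - hgt (ω - γ) p = (hgt ω q - hgt ω p) + γ * (q.1 - p.1) := by
    rw [hgt_change, hgt_change]; ring
  rw [e0]
  suffices hsuff : γ / 2 * |q.1 - p.1| ≤ |(hgt ω q - hgt ω p) + γ * (q.1 - p.1)| ∧
      (hgt ω q - hgt ω p) + γ * (q.1 - p.1) ≠ 0 by
    refine ⟨hsuff.1, fun h => hsuff.2 ?_⟩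
    rw [← e0, h, sub_self]
  rcases lt_or_ge j (2 * n + 2) with h | h
  · rw [ext_old (by omega)] at hp hq
    obtain ⟨h1, h2⟩ := H.two i j hij h p hp q hq
    set D := q.1 - p.1
    set E := hgt ω q - hgt ω p
    have hE : E ≠ 0 := sub_ne_zero.2 (Ne.symm h2)
    have hE' : 0 < |E| := abs_pos.2 hE
    have hD := abs_nonneg D
    have h3 : |E| - |γ * D| ≤ |E + γ * D| := by
      have := abs_sub_abs_le_abs_sub E (-(γ * D))
      rw [abs_neg, sub_neg_eq_add] at this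
      exact this
    have h4 : |γ * D| = γ * |D| := by rw [abs_mul, abs_of_pos γ0]
    rw [h4] at h3
    have h5 : 3 / 2 * γ * |D| ≤ σ * |D| := mul_le_mul_of_nonneg_right γσ.le hD
    refine ⟨by linarith, fun h0 => ?_⟩
    rw [h0, abs_zero] at h3
    have h6 : γ * |D| ≤ 2 / 3 * |E| := by linarith
    linarith
  rcases lt_or_ge i (2 * n + 2) with hi | hi
  · rw [ext_old (by omega)] at hp
    obtain ⟨p1, p2⟩ := H.bd i (by omega) p hp
    have z1 := abs_le.1 p1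
    have z2 := abs_le.1 p2
    rcases (show j = 2 * n + 2 ∨ j = 2 * n + 3 by omega) with h1 | h1
    · obtain ⟨⟨g1, g2⟩, g3, g4⟩ := mem_G h1 hq
      refine gen _ _ (by linarith) ?_
      have : γ / 2 * M ≤ γ / 2 * (q.1 - p.1) := mul_le_mul_of_nonneg_left (by linarith) (by linarith)
      linarith
    · obtain ⟨⟨f1, f2⟩, f3, f4⟩ := mem_F h1 hq
      refine gen _ _ (by linarith) ?_
      have : 0 < γ / 2 * (q.1 - p.1) := mul_pos (by linarith) (by linarith)
      linarith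
  · obtain ⟨⟨g1, g2⟩, g3, g4⟩ := mem_G (show i = 2 * n + 2 by omega) hp
    obtain ⟨⟨f1, f2⟩, f3, f4⟩ := mem_F (show j = 2 * n + 3 by omega) hq
    refine gen _ _ (by linarith) ?_
    have : 0 < γ / 2 * (q.1 - p.1) := mul_pos (by linarith) (by linarith)
    linarith

/-- a choice of points and pieces -/
def Chosen (n k : ℕ) (K : ℕ → Set Pt) (ω r M δ : ℝ) (v : ℕ → Pt) (d e : Pt) (π : ℕ → ℕ) (x : ℕ → Pt) :
    Prop :=
  ∀ j < 2 * n + 4, π j ≤ k ∧ x j ∈ ext n K ω r M δ j ∧ x j ∈ piece k v d e (π j)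

/-- piece `i` has exactly two sets -/
def Pair (n : ℕ) (π : ℕ → ℕ) (i : ℕ) : Prop :=
  ∃ a b, a < b ∧ b < 2 * n + 4 ∧ π a = i ∧ π b = i ∧ ∀ c < 2 * n + 4, π c = i → c = a ∨ c = b

section chosen
variable {k : ℕ} {v : ℕ → Pt} {d e : Pt} {π : ℕ → ℕ} {x : ℕ → Pt}

lemma chosen_three (H : Good n K ω r σ η) (N : Num r σ η M δ) (C : Chosen n k K ω r M δ v d e π x) :
    ∀ a b c, a < b → b < c → c < 2 * n + 4 → π a = π b → π b = π c → False := by
  intro a b c ab bc hc e1 e2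
  obtain ⟨-, a1, a2⟩ := C a (by omega)
  obtain ⟨-, b1, b2⟩ := C b (by omega)
  obtain ⟨-, c1, c2⟩ := C c hc
  rw [← e2, ← e1] at c2
  rw [← e1] at b2
  exact three_ext H N a b c ab bc hc _ a1 _ b1 _ c1 (piece_collinear a2 b2 c2)

/-- the two points of a pair are different -/
lemma chosen_ne (H : Good n K ω r σ η) (N : Num r σ η M δ) (C : Chosen n k K ω r M δ v d e π x)
    {a b : ℕ} (ab : a < b) (hb : b < 2 * n + 4) : x a ≠ x b := by
  have hM := N.M1
  have hγ : 2 * (r + 1) / M * M = 2 * (r + 1) := div_mul_cancel₀ _ (by linarith)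
  have := (two_ext H N hγ a b ab hb _ (C a (by omega)).2.1 _ (C b hb).2.1).2
  intro h
  rw [h] at this
  exact this rfl

lemma piece_I (H : Good n K ω r σ η) (N : Num r σ η M δ) (C : Chosen n k K ω r M δ v d e π x)
    {i : ℕ} (hp : Pair n π i) (h1 : i ≠ π (2 * n + 2)) (h2 : i ≠ π (2 * n + 3)) {w : Pt}
    (hw : w ∈ piece k v d e i) : PI ω r σ w := by
  obtain ⟨a, b, ab, hb, ea, eb, -⟩ := hp
  have hb' : b < 2 * n + 2 := by
    by_contra hc
    rcases (show b = 2 * n + 2 ∨ b = 2 * n + 3 by omega) with rfl | rfl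
    · exact h1 eb.symm
    · exact h2 eb.symm
  obtain ⟨-, a1, a2⟩ := C a (by omega)
  obtain ⟨-, b1, b2⟩ := C b hb
  rw [ea] at a2
  rw [eb] at b2
  obtain ⟨τ, hτ⟩ := piece_param a2 b2 hw (chosen_ne H N C ab hb)
  rw [ext_old (by omega)] at a1 b1
  exact cls_I H ab hb' a1 b1 hτ

lemma pair_G (hgf : π (2 * n + 2) ≠ π (2 * n + 3)) (hp : Pair n π (π (2 * n + 2))) :
    ∃ a, a < 2 * n + 2 ∧ π a = π (2 * n + 2) := by
  obtain ⟨a, b, ab, hb, ea, eb, hall⟩ := hp
  refine ⟨a, ?_, ea⟩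
  by_contra hc
  have h1 : b = 2 * n + 3 := by omega
  subst h1
  exact hgf eb.symm

lemma pair_F (hgf : π (2 * n + 2) ≠ π (2 * n + 3)) (hp : Pair n π (π (2 * n + 3))) :
    ∃ a, a < 2 * n + 2 ∧ π a = π (2 * n + 3) := by
  obtain ⟨a, b, ab, hb, ea, eb, hall⟩ := hp
  refine ⟨a, ?_, ea⟩
  by_contra hc
  have h1 : a = 2 * n + 2 := by omega
  subst h1
  exact hgf ea

lemma piece_G (H : Good n K ω r σ η) (N : Num r σ η M δ) (C : Chosen n k K ω r M δ v d e π x)
    (hgf : π (2 * n + 2) ≠ π (2 * n + 3)) (hp : Pair n π (π (2 * n + 2))) {w : Pt}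
    (hw : w ∈ piece k v d e (π (2 * n + 2))) : PG ω r M w := by
  obtain ⟨a, ha, ea⟩ := pair_G hgf hp
  obtain ⟨-, a1, a2⟩ := C a (by omega)
  obtain ⟨-, b1, b2⟩ := C (2 * n + 2) (by omega)
  rw [ea] at a2
  obtain ⟨τ, hτ⟩ := piece_param a2 b2 hw (chosen_ne H N C ha (by omega))
  rw [ext_old (by omega)] at a1
  exact cls_G H N ha rfl a1 b1 hτ

lemma piece_F (H : Good n K ω r σ η) (N : Num r σ η M δ) (C : Chosen n k K ω r M δ v d e π x)
    (hgf : π (2 * n + 2) ≠ π (2 * n + 3)) (hp : Pair n π (π (2 * n + 3))) {w : Pt}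
    (hw : w ∈ piece k v d e (π (2 * n + 3))) : PF ω r M w := by
  obtain ⟨a, ha, ea⟩ := pair_F hgf hp
  obtain ⟨-, a1, a2⟩ := C a (by omega)
  obtain ⟨-, b1, b2⟩ := C (2 * n + 3) (by omega)
  rw [ea] at a2
  obtain ⟨τ, hτ⟩ := piece_param a2 b2 hw (chosen_ne H N C (show a < 2 * n + 3 by omega) (by omega))
  rw [ext_old (by omega)] at a1
  exact cls_F H N ha rfl a1 b1 hτ

lemma piece_T (H : Good n K ω r σ η) (N : Num r σ η M δ) (C : Chosen n k K ω r M δ v d e π x)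
    (hgf : π (2 * n + 2) = π (2 * n + 3)) {w : Pt}
    (hw : w ∈ piece k v d e (π (2 * n + 2))) : PT ω r σ M w := by
  obtain ⟨-, a1, a2⟩ := C (2 * n + 2) (by omega)
  obtain ⟨-, b1, b2⟩ := C (2 * n + 3) (by omega)
  rw [← hgf] at b2
  obtain ⟨τ, hτ⟩ := piece_param a2 b2 hw
    (chosen_ne H N C (show 2 * n + 2 < 2 * n + 3 by omega) (by omega))
  exact cls_T N rfl rfl a1 b1 hτ

/-- a common point of two pieces with two sets each, one of them containing a new set -/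
lemma meet_lt (H : Good n K ω r σ η) (N : Num r σ η M δ) (C : Chosen n k K ω r M δ v d e π x)
    {i i' : ℕ} (hp : Pair n π i) (hp' : Pair n π i') (hne : i ≠ i')
    (hi : i = π (2 * n + 2) ∨ i = π (2 * n + 3)) {w : Pt} (hw : w ∈ piece k v d e i)
    (hw' : w ∈ piece k v d e i') : w.1 < M + r := by
  by_cases hgf : π (2 * n + 2) = π (2 * n + 3)
  · have e1 : i = π (2 * n + 2) := by
      rcases hi with h | h
      · exact h
      · rw [h, hgf]
    have h1 : i' ≠ π (2 * n + 2) := fun h => hne (e1.trans h.symm)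
    have h2 : i' ≠ π (2 * n + 3) := fun h => hne (e1.trans (hgf.trans h.symm))
    refine factIT N (piece_I H N C hp' h1 h2 hw') (piece_T H N C hgf ?_)
    rw [← e1]; exact hw
  · rcases hi with h | h
    · have hG : PG ω r M w := piece_G H N C hgf (h ▸ hp) (h ▸ hw)
      by_cases h3 : i' = π (2 * n + 3)
      · exact factGF N hG (piece_F H N C hgf (h3 ▸ hp') (h3 ▸ hw'))
      · exact factIG N (piece_I H N C hp' (fun h4 => hne (h.trans h4.symm)) h3 hw') hG
    · have hF : PF ω r M w := piece_F H N C hgf (h ▸ hp) (h ▸ hw)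
      by_cases h3 : i' = π (2 * n + 2)
      · exact factGF N (piece_G H N C hgf (h3 ▸ hp') (h3 ▸ hw')) hF
      · exact factIF N (piece_I H N C hp' h3 (fun h4 => hne (h.trans h4.symm)) hw') hF

end chosen

lemma segment_lt {a b y : Pt} {c : ℝ} (hy : y ∈ segment ℝ a b) (ha : a.1 < c) (hb : b.1 < c) : y.1 < c := by
  obtain ⟨t, h0, h1, rfl⟩ := segment_param hy
  simp only [Prod.fst_add, Prod.smul_fst, Prod.fst_sub, smul_eq_mul]
  rcases h0.eq_or_lt with rfl | h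
  · simpa using ha
  · nlinarith [mul_nonneg (show 0 ≤ 1 - t by linarith) (show 0 ≤ c - a.1 by linarith), mul_pos h (show 0 < c - b.1 by linarith)]

end step

end MPde2e60
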