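import Pool.Agent.Lib.MP_de2e60_co.Step

/-!
The two path statements of the induction step.
-/

set_option autoImplicit false

namespace MPde2e60

section
variable {n : ℕ} {K : ℕ → Set Pt} {ω r σ η M δ : ℝ}

/-- the direction of an end piece which contains an old point and a new point -/
lemma end_dir (N : Num r σ η M δ) {V D z y : Pt} (hV : V.1 < M + r) (hz : z ∈ ray V D) (hy : y ∈ ray V D)
    (z1 : |z.1| ≤ r) (z2 : |hgt ω z| ≤ r) (y1 : M + r < y.1) (y2 : |hgt ω y| ≤ 8 * r + 9) :
    0 < D.1 ∧ |hgt ω D| ≤ η * D.1 := by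
  obtain ⟨t, ht, rfl⟩ := hy
  obtain ⟨s, hs, rfl⟩ := hz
  have hM := N.M1
  have hr := N.r1
  have m7 := N.m7
  simp only [Prod.fst_add, Prod.smul_fst, smul_eq_mul, hgt_add, hgt_smul] at z1 z2 y1 y2
  have hD : 0 < D.1 := by
    by_contra hc
    push Not at hc
    have : t * D.1 ≤ 0 := mul_nonpos_of_nonneg_of_nonpos ht hc
    linarith
  refine ⟨hD, ?_⟩
  have a1 := abs_le.1 z1
  have hts : M ≤ (t - s) * D.1 := by linarith
  have hts0 : 0 < t - s := by
    by_contra hc
    push Not at hc
    have : (t - s) * D.1 ≤ 0 := mul_nonpos_of_nonpos_of_nonneg hc hD.le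
    linarith
  have h1 : |(t - s) * hgt ω D| ≤ 9 * (r + 1) := by
    have a2 := abs_le.1 z2
    have a3 := abs_le.1 y2
    rw [abs_le]
    constructor <;> linarith
  rw [abs_mul, abs_of_pos hts0] at h1
  have h2 : (t - s) * |hgt ω D| ≤ (t - s) * (η * D.1) := by
    have : η * M ≤ η * ((t - s) * D.1) := mul_le_mul_of_nonneg_left hts N.η0.le
    linarith
  exact le_of_mul_le_mul_left h2 hts0

theorem stepA (hn : 1 ≤ n) (H : Good n K ω r σ η) (N : Num r σ η M δ) (v : ℕ → Pt) (d e : Pt) :
    ¬ MeetsAll (2 * n + 4) (n + 1) (ext n K ω r M δ) v d e := by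
  intro hm
  have hm' : ∀ j, ∃ i : ℕ, ∃ x : Pt, j < 2 * n + 4 → i ≤ n + 1 ∧ x ∈ ext n K ω r M δ j ∧
      x ∈ piece (n + 1) v d e i := by
    intro j
    by_cases hj : j < 2 * n + 4
    · obtain ⟨i, hi, x, h1, h2⟩ := hm j hj
      exact ⟨i, x, fun _ => ⟨hi, h1, h2⟩⟩
    · exact ⟨0, 0, fun h => absurd h hj⟩
  choose π x C using hm'
  have C' : Chosen n (n + 1) K ω r M δ v d e π x := C
  have h3 := chosen_three H N C'
  have hM := N.M1
  have hr := N.r1
  have hδ := N.δ64
  have pr : ∀ i ≤ n + 1, Pair n π i := by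
    have e1 : 2 * (n + 1 + 1) = 2 * n + 4 := by ring
    have := count_two (k := n + 1) (f := π) (fun j hj => (C j (by omega)).1)
      (fun a b c h1 h2 h4 => h3 a b c h1 h2 (by omega))
    rw [e1] at this
    exact this
  -- a piece with a new set is an end piece
  have isEnd : ∀ i ≤ n + 1, (i = π (2 * n + 2) ∨ i = π (2 * n + 3)) →
      (∃ y ∈ piece (n + 1) v d e i, M + r < y.1) → i = 0 ∨ i = n + 1 := by
    rintro i hi hgf ⟨y, hy, hy1⟩
    by_contra hc
    push Not at hc
    obtain ⟨hc0, hc1⟩ := hc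
    have hlt : i < n + 1 := lt_of_le_of_ne hi hc1
    have a1 : (v i).1 < M + r := by
      refine meet_lt H N C' (pr i hi) (pr (i - 1) (by omega)) (by omega) hgf
        (turn_mem_right (by omega) hi v d e) ?_
      have := turn_mem_left (k := n + 1) (i := i - 1) (by omega) v d e
      rwa [show i - 1 + 1 = i by omega] at this
    have a2 : (v (i + 1)).1 < M + r :=
      meet_lt H N C' (pr i hi) (pr (i + 1) (by omega)) (by omega) hgf
        (turn_mem_left (by omega) v d e) (turn_mem_right (by omega) (by omega) v d e)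
    rw [piece_mid hc0 hlt] at hy
    exact absurd (segment_lt hy a1 a2) (not_lt.2 hy1.le)
  obtain ⟨gk, gK, gp⟩ := C (2 * n + 2) (by omega)
  obtain ⟨fk, fK, fp⟩ := C (2 * n + 3) (by omega)
  obtain ⟨⟨g1, g2⟩, g3, g4⟩ := mem_G rfl gK
  obtain ⟨⟨f1, f2⟩, f3, f4⟩ := mem_F rfl fK
  have gE := isEnd _ gk (Or.inl rfl) ⟨_, gp, g1⟩
  have fE := isEnd _ fk (Or.inr rfl) ⟨_, fp, by linarith⟩
  by_cases hgf : π (2 * n + 2) = π (2 * n + 3)
  · have old : ∀ j < 2 * n + 2, π j ≠ π (2 * n + 2) := fun j hj h =>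
      h3 j (2 * n + 2) (2 * n + 3) hj (by omega) (by omega) h hgf
    rcases gE with h0 | h0
    · refine H.A (fun j => v (j + 1)) (v 1 - v 2) e fun j hj => ?_
      obtain ⟨jk, jK, jp⟩ := C j (by omega)
      rw [ext_old hj] at jK
      have hne := old j hj
      rw [h0] at hne
      exact ⟨π j - 1, by omega, x j, jK, trim_first hn (by omega) jk jp⟩
    · refine H.A v d (v (n + 1) - v n) fun j hj => ?_
      obtain ⟨jk, jK, jp⟩ := C j (by omega)
      rw [ext_old hj] at jK
      have hne := old j hj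
      rw [h0] at hne
      exact ⟨π j, by omega, x j, jK, trim_last hn (by omega) jp⟩
  · -- the two end pieces
    obtain ⟨a, ha, ea⟩ := pair_G hgf (pr _ gk)
    obtain ⟨b, hb, eb⟩ := pair_F hgf (pr _ fk)
    obtain ⟨-, aK, ap⟩ := C a (by omega)
    obtain ⟨-, bK, bp⟩ := C b (by omega)
    rw [ext_old (by omega)] at aK bK
    obtain ⟨a1, a2⟩ := H.bd a (by omega) _ aK
    obtain ⟨b1, b2⟩ := H.bd b (by omega) _ bK
    rw [ea] at ap
    rw [eb] at bp
    have gh : |hgt ω (x (2 * n + 2))| ≤ 8 * r + 9 := by rw [abs_le]; constructor <;> linarith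
    have fh : |hgt ω (x (2 * n + 3))| ≤ 8 * r + 9 := by rw [abs_le]; constructor <;> linarith
    -- first turn and last turn
    have t1 : (v 1).1 < M + r := by
      have c0 : (0 : ℕ) = π (2 * n + 2) ∨ (0 : ℕ) = π (2 * n + 3) := by omega
      exact meet_lt H N C' (pr 0 (by omega)) (pr 1 (by omega)) (by omega) c0
        (turn_mem_left (i := 0) (by omega) v d e) (turn_mem_right (by omega) (by omega) v d e)
    have t2 : (v (n + 1)).1 < M + r := by
      have c0 : n + 1 = π (2 * n + 2) ∨ n + 1 = π (2 * n + 3) := by omega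
      exact meet_lt H N C' (pr (n + 1) le_rfl) (pr n (by omega)) (by omega) c0
        (turn_mem_right (by omega) le_rfl v d e) (turn_mem_left (by omega) v d e)
    have fin : 0 < d.1 ∧ |hgt ω d| ≤ η * d.1 ∧ 0 < e.1 ∧ |hgt ω e| ≤ η * e.1 := by
      rcases gE with h0 | h0
      · have h1 : π (2 * n + 3) = n + 1 := by omega
        rw [h0, piece_zero (by omega)] at gp ap
        rw [h1, piece_last (by omega)] at fp bp
        obtain ⟨q1, q2⟩ := end_dir N t1 ap gp a1 a2 g1 gh
        obtain ⟨q3, q4⟩ := end_dir N t2 bp fp b1 b2 (by linarith) fh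
        exact ⟨q1, q2, q3, q4⟩
      · have h1 : π (2 * n + 3) = 0 := by omega
        rw [h0, piece_last (by omega)] at gp ap
        rw [h1, piece_zero (by omega)] at fp bp
        obtain ⟨q3, q4⟩ := end_dir N t2 ap gp a1 a2 g1 gh
        obtain ⟨q1, q2⟩ := end_dir N t1 bp fp b1 b2 (by linarith) fh
        exact ⟨q1, q2, q3, q4⟩
    refine H.B v d e fin.1 fin.2.1 fin.2.2.1 fin.2.2.2 fun j hj => ?_
    obtain ⟨jk, jK, jp⟩ := C j (by omega)
    rw [ext_old hj] at jK
    exact ⟨π j, jk, x j, jK, jp⟩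

/-- an end piece whose direction is nearly parallel to `ω'` meets at most one set -/
lemma ray_one {ω' s t : ℝ} (hst : t < s) {V D p q : Pt} (hp : p ∈ ray V D) (hq : q ∈ ray V D)
    (hD : 0 < D.1) (hD2 : |hgt ω' D| ≤ t * D.1) (h1 : s * |q.1 - p.1| ≤ |hgt ω' q - hgt ω' p|)
    (h2 : hgt ω' p ≠ hgt ω' q) : False := by
  obtain ⟨a, ha, rfl⟩ := hp
  obtain ⟨b, hb, rfl⟩ := hq
  simp only [Prod.fst_add, Prod.smul_fst, smul_eq_mul, hgt_add, hgt_smul] at h1 h2
  have hab : b - a ≠ 0 := by
    intro h0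
    apply h2
    rw [show a = b by linarith]
  have e1 : V.1 + b * D.1 - (V.1 + a * D.1) = (b - a) * D.1 := by ring
  have e2 : hgt ω' V + b * hgt ω' D - (hgt ω' V + a * hgt ω' D) = (b - a) * hgt ω' D := by ring
  rw [e1, e2, abs_mul, abs_mul, abs_of_pos hD] at h1
  have h3 : 0 < |b - a| := abs_pos.2 hab
  have h4 : |b - a| * |hgt ω' D| ≤ |b - a| * (t * D.1) := mul_le_mul_of_nonneg_left hD2 h3.le
  have h5 : 0 < |b - a| * D.1 := mul_pos h3 hD
  nlinarith

/-- position of the start of an end piece -/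
lemma end_turn {j : ℕ} (H : Good n K ω r σ η) (N : Num r σ η M δ) (hj : j < 2 * n + 4) {V D y : Pt}
    (hD : 0 < D.1) (hD2 : hgt ω D ≤ 0) (hy : y ∈ ray V D) (hyK : y ∈ ext n K ω r M δ j) :
    (j ≠ 2 * n + 3 → V.1 < M + r + 2) ∧ (j ≠ 2 * n + 2 → PG ω r M V → V.1 < M + r) := by
  have hM := N.M1
  have hr := N.r1
  have hδ := N.δ64
  have m1 := N.m1
  obtain ⟨t, ht, rfl⟩ := hy
  have e1 : (V + t • D).1 = V.1 + t * D.1 := by simp
  have e2 : hgt ω (V + t • D) = hgt ω V + t * hgt ω D := by rw [hgt_add, hgt_smul]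
  have h1 : 0 ≤ t * D.1 := mul_nonneg ht hD.le
  have h2 : t * hgt ω D ≤ 0 := mul_nonpos_of_nonneg_of_nonpos ht hD2
  have hold : j < 2 * n + 2 → V.1 < M + r := by
    intro h
    rw [ext_old h] at hyK
    have h3 := (abs_le.1 (H.bd j h _ hyK).1).2
    rw [e1] at h3
    linarith
  constructor
  · intro h3
    rcases lt_or_ge j (2 * n + 2) with h | h
    · have := hold h; linarith
    · obtain ⟨⟨g1, g2⟩, -, -⟩ := mem_G (show j = 2 * n + 2 by omega) hyK
      rw [e1] at g2
      linarith
  · intro h3 hPG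
    rcases lt_or_ge j (2 * n + 2) with h | h
    · exact hold h
    · obtain ⟨⟨f1, f2⟩, f3, f4⟩ := mem_F (show j = 2 * n + 3 by omega) hyK
      rw [e1] at f1 f2
      rw [e2] at f3
      by_contra hc
      push Not at hc
      have h4 := hPG (by linarith)
      have h5 : (r + 1) * (V.1 + r) ≤ (r + 1) * (2 * M) :=
        mul_le_mul_of_nonneg_left (by linarith) (by linarith)
      have h6 : M * (|hgt ω V| - r) ≤ M * (2 * (r + 1)) := by linarith
      have h7 := le_of_mul_le_mul_left h6 (by linarith : 0 < M)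
      have h8 := le_abs_self (hgt ω V)
      linarith

theorem stepB (hn : 1 ≤ n) (H : Good n K ω r σ η) (N : Num r σ η M δ) {γ : ℝ} (hγ : γ * M = 2 * (r + 1))
    (v : ℕ → Pt) (d e : Pt) (d1 : 0 < d.1) (d2 : |hgt (ω - γ) d| ≤ γ / 4 * d.1) (e1 : 0 < e.1)
    (e2 : |hgt (ω - γ) e| ≤ γ / 4 * e.1) :
    ¬ MeetsAll (2 * n + 4) (n + 2) (ext n K ω r M δ) v d e := by
  intro hm
  have hm' : ∀ j, ∃ i : ℕ, ∃ x : Pt, j < 2 * n + 4 → i ≤ n + 2 ∧ x ∈ ext n K ω r M δ j ∧
      x ∈ piece (n + 2) v d e i := by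
    intro j
    by_cases hj : j < 2 * n + 4
    · obtain ⟨i, hi, x, h1, h2⟩ := hm j hj
      exact ⟨i, x, fun _ => ⟨hi, h1, h2⟩⟩
    · exact ⟨0, 0, fun h => absurd h hj⟩
  choose π x C using hm'
  have C' : Chosen n (n + 2) K ω r M δ v d e π x := C
  have h3 := chosen_three H N C'
  have hM := N.M1
  have hr := N.r1
  have hδ := N.δ64
  have γ0 : 0 < γ := by
    by_contra hc
    push Not at hc
    have : γ * M ≤ 0 := mul_nonpos_of_nonpos_of_nonneg hc (by linarith)
    linarith
  have dh : hgt ω d ≤ 0 := by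
    rw [hgt_change] at d2
    have := (abs_le.1 d2).2
    have h4 : 0 < γ * d.1 := mul_pos γ0 d1
    linarith
  have eh : hgt ω e ≤ 0 := by
    rw [hgt_change] at e2
    have := (abs_le.1 e2).2
    have h4 : 0 < γ * e.1 := mul_pos γ0 e1
    linarith
  have hends : ∀ a b, a < b → b < 2 * n + 4 → π a = π b → π a ≠ 0 ∧ π a ≠ n + 1 + 1 := by
    intro a b ab hb eab
    obtain ⟨-, aK, ap⟩ := C a (by omega)
    obtain ⟨-, bK, bp⟩ := C b hb
    rw [← eab] at bp
    obtain ⟨h4, h5⟩ := two_ext H N hγ a b ab hb _ aK _ bK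
    constructor
    · intro h0
      rw [h0, piece_zero (by omega)] at ap bp
      exact ray_one (by linarith : γ / 4 < γ / 2) ap bp d1 d2 h4 h5
    · intro h0
      rw [h0, piece_last (by omega)] at ap bp
      exact ray_one (by linarith : γ / 4 < γ / 2) ap bp e1 e2 h4 h5
  have hcnt := count_ends (m := n + 1) (f := π) (fun j hj => (C j (by omega)).1)
    (fun a b c h1 h2 h4 => h3 a b c h1 h2 (by omega))
    (fun a b h1 h2 h4 => hends a b h1 (by omega) h4)
  rw [show 2 * (n + 1) + 2 = 2 * n + 4 by ring] at hcnt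
  obtain ⟨⟨ja, ja1, ja2, ja3⟩, ⟨jb, jb1, jb2, jb3⟩, pr⟩ := hcnt
  have pr' : ∀ i, 1 ≤ i → i ≤ n + 1 → Pair n π i := pr
  obtain ⟨-, aK, ap⟩ := C ja ja1
  obtain ⟨-, bK, bp⟩ := C jb jb1
  rw [ja2, piece_zero (by omega)] at ap
  rw [jb2, show n + 1 + 1 = n + 2 from rfl, piece_last (by omega)] at bp
  have ta := end_turn H N ja1 d1 dh ap aK
  have tb := end_turn H N jb1 e1 eh bp bK
  obtain ⟨gk, gK, gp⟩ := C (2 * n + 2) (by omega)
  obtain ⟨fk, fK, fp⟩ := C (2 * n + 3) (by omega)
  obtain ⟨⟨g1, g2⟩, g3, g4⟩ := mem_G rfl gK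
  obtain ⟨⟨f1, f2⟩, f3, f4⟩ := mem_F rfl fK
  -- `F` is on an end piece
  have fE : π (2 * n + 3) = 0 ∨ π (2 * n + 3) = n + 2 := by
    by_contra hc
    push Not at hc
    obtain ⟨hc0, hc1⟩ := hc
    set i := π (2 * n + 3) with hi
    have a1 : (v i).1 < M + r + 2 := by
      rcases Nat.lt_or_ge 1 i with h | h
      · have : (v i).1 < M + r := by
          refine meet_lt H N C' (pr' i (by omega) (by omega)) (pr' (i - 1) (by omega) (by omega))
            (by omega) (Or.inr hi) (turn_mem_right (by omega) fk v d e) ?_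
          have := turn_mem_left (k := n + 2) (i := i - 1) (by omega) v d e
          rwa [show i - 1 + 1 = i by omega] at this
        linarith
      · have h1 : i = 1 := by omega
        rw [h1]
        refine ta.1 fun h => ?_
        rw [h] at ja2; omega
    have a2 : (v (i + 1)).1 < M + r + 2 := by
      rcases Nat.lt_or_ge i (n + 1) with h | h
      · have : (v (i + 1)).1 < M + r :=
          meet_lt H N C' (pr' i (by omega) (by omega)) (pr' (i + 1) (by omega) (by omega)) (by omega)
            (Or.inr hi) (turn_mem_left (by omega) v d e) (turn_mem_right (by omega) (by omega) v d e)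
        linarith
      · have h1 : i + 1 = n + 2 := by omega
        rw [h1]
        refine tb.1 fun h => ?_
        rw [h] at jb2; omega
    rw [piece_mid hc0 (lt_of_le_of_ne fk hc1)] at fp
    have := segment_lt fp a1 a2
    linarith
  -- `G` is on an end piece
  have gE : π (2 * n + 2) = 0 ∨ π (2 * n + 2) = n + 2 := by
    by_contra hc
    push Not at hc
    obtain ⟨hc0, hc1⟩ := hc
    have hgf : π (2 * n + 2) ≠ π (2 * n + 3) := by omega
    set i := π (2 * n + 2) with hi
    have hG : ∀ w ∈ piece (n + 2) v d e i, PG ω r M w := fun w hw =>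
      piece_G H N C' hgf (pr' _ (by omega) (by omega)) hw
    have a1 : (v i).1 < M + r := by
      rcases Nat.lt_or_ge 1 i with h | h
      · refine meet_lt H N C' (pr' i (by omega) (by omega)) (pr' (i - 1) (by omega) (by omega))
          (by omega) (Or.inl hi) (turn_mem_right (by omega) gk v d e) ?_
        have := turn_mem_left (k := n + 2) (i := i - 1) (by omega) v d e
        rwa [show i - 1 + 1 = i by omega] at this
      · have h1 : i = 1 := by omega
        have h2 := hG (v i) (turn_mem_right (by omega) gk v d e)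
        rw [h1] at h2 ⊢
        refine ta.2 (fun h => ?_) h2
        rw [h] at ja2; omega
    have a2 : (v (i + 1)).1 < M + r := by
      rcases Nat.lt_or_ge i (n + 1) with h | h
      · exact meet_lt H N C' (pr' i (by omega) (by omega)) (pr' (i + 1) (by omega) (by omega)) (by omega)
            (Or.inl hi) (turn_mem_left (by omega) v d e) (turn_mem_right (by omega) (by omega) v d e)
      · have h1 : i + 1 = n + 2 := by omega
        have h2 := hG (v (i + 1)) (turn_mem_left (by omega) v d e)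
        rw [h1] at h2 ⊢
        refine tb.2 (fun h => ?_) h2
        rw [h] at jb2; omega
    rw [piece_mid hc0 (lt_of_le_of_ne gk hc1)] at gp
    have := segment_lt gp a1 a2
    linarith
  -- now all old sets are on the middle pieces
  have old : ∀ j < 2 * n + 2, 1 ≤ π j ∧ π j ≤ n + 1 := by
    intro j hj
    have hjk := (C j (by omega)).1
    have h0 : π j ≠ 0 := by
      intro h
      have q1 := ja3 j (by omega) h
      rcases gE with h4 | h4
      · have q2 := ja3 (2 * n + 2) (by omega) h4; omega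
      · rcases fE with h5 | h5
        · have q2 := ja3 (2 * n + 3) (by omega) h5; omega
        · have q2 := jb3 (2 * n + 2) (by omega) h4
          have q3 := jb3 (2 * n + 3) (by omega) h5
          omega
    have h1 : π j ≠ n + 2 := by
      intro h
      have q1 := jb3 j (by omega) h
      rcases gE with h4 | h4
      · rcases fE with h5 | h5
        · have q2 := ja3 (2 * n + 2) (by omega) h4
          have q3 := ja3 (2 * n + 3) (by omega) h5
          omega
        · have q2 := jb3 (2 * n + 3) (by omega) h5; omega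
      · have q2 := jb3 (2 * n + 2) (by omega) h4; omega
    omega
  refine H.A (fun j => v (j + 1)) (v 1 - v 2) (v (n + 2) - v (n + 1)) fun j hj => ?_
  obtain ⟨jk, jK, jp⟩ := C j (by omega)
  rw [ext_old hj] at jK
  obtain ⟨o1, o2⟩ := old j hj
  have s1 := trim_first (n := n + 1) (by omega) o1 (by omega) jp
  exact ⟨π j - 1, by omega, x j, jK, trim_last hn (by omega) s1⟩

end

end MPde2e60
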