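import Pool.Agent.Lib.MP_de2e60_co.Gauss

set_option autoImplicit false

namespace MPde2e60

open MeasureTheory

lemma cross_add_right (a b c : Pt) : cross a (b + c) = cross a b + cross a c := by
  simp only [cross, Prod.fst_add, Prod.snd_add]; ring
lemma cross_sub_right (a b c : Pt) : cross a (b - c) = cross a b - cross a c := by
  simp only [cross, Prod.fst_sub, Prod.snd_sub]; ring
lemma cross_add_left (a b c : Pt) : cross (a + b) c = cross a c + cross b c := by
  simp only [cross, Prod.fst_add, Prod.snd_add]; ring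
lemma cross_sub_left (a b c : Pt) : cross (a - b) c = cross a c - cross b c := by
  simp only [cross, Prod.fst_sub, Prod.snd_sub]; ring
lemma cross_smul_right (a b : Pt) (t : ℝ) : cross a (t • b) = t * cross a b := by
  simp only [cross, Prod.smul_fst, Prod.smul_snd, smul_eq_mul]; ring
lemma cross_smul_left (a b : Pt) (t : ℝ) : cross (t • a) b = t * cross a b := by
  simp only [cross, Prod.smul_fst, Prod.smul_snd, smul_eq_mul]; ring
lemma cross_self (a : Pt) : cross a a = 0 := by simp only [cross]; ring
lemma cross_comm (a b : Pt) : cross a b = -cross b a := by simp only [cross]; ring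
lemma cross_neg_right (a b : Pt) : cross a (-b) = -cross a b := by
  simp only [cross, Prod.fst_neg, Prod.snd_neg]; ring
lemma cross_neg_left (a b : Pt) : cross (-a) b = -cross a b := by
  simp only [cross, Prod.fst_neg, Prod.snd_neg]; ring

lemma exists_smul_of_cross {d u : Pt} (hd : d ≠ 0) (h : cross d u = 0) : ∃ t : ℝ, u = t • d := by
  have hd' : d.1 ≠ 0 ∨ d.2 ≠ 0 := by
    by_contra hc
    push Not at hc
    exact hd (Prod.ext hc.1 hc.2)
  unfold cross at h
  rcases hd' with h1 | h1
  · refine ⟨u.1 / d.1, Prod.ext ?_ ?_⟩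
    · simp only [Prod.smul_fst, smul_eq_mul]; field_simp
    · simp only [Prod.smul_snd, smul_eq_mul]; field_simp; linarith
  · refine ⟨u.2 / d.2, Prod.ext ?_ ?_⟩
    · simp only [Prod.smul_fst, smul_eq_mul]; field_simp; linarith
    · simp only [Prod.smul_snd, smul_eq_mul]; field_simp

/-- the linear form `x ↦ cross d x` is continuous -/
lemma continuous_cross_right (d : Pt) : Continuous fun x : Pt => cross d x := by
  unfold cross; fun_prop
lemma continuous_cross_left (e : Pt) : Continuous fun x : Pt => cross x e := by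
  unfold cross; fun_prop

lemma μ3_univ_ne (i : Fin 3) : μ3 i Set.univ / 2 ≠ 0 := by
  have h : 0 < ∫ x, ρ i x := by
    rw [integral_pos_iff_support_of_nonneg (fun x => (ρ_pos i x).le) (integrable_ρ i)]
    have : Function.support (ρ i) = Set.univ := by
      ext x; simp [Function.mem_support, (ρ_pos i x).ne']
    rw [this]
    exact isOpen_univ.measure_pos volume Set.univ_nonempty
  rw [μ3_apply i MeasurableSet.univ, setIntegral_univ]
  simp [ENNReal.div_eq_zero_iff, h]

lemma two_regions {L R1 R2 : Set Pt} {c : Pt → Bool}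
    (hc1 : ∀ x ∈ R1, ∀ y ∈ R1, c x = c y) (hc2 : ∀ x ∈ R2, ∀ y ∈ R2, c x = c y)
    (hL : ∀ x, x ∉ L ↔ x ∈ R1 ∨ x ∈ R2) (hne : R1.Nonempty) (hne2 : R2.Nonempty)
    (hs : ∀ b, μ3 0 {x | x ∉ L ∧ c x = b} = μ3 0 Set.univ / 2) : ∃ b, {x | x ∉ L ∧ c x = b} = R1 := by
  obtain ⟨p, hp⟩ := hne
  obtain ⟨q, hq⟩ := hne2
  by_cases hpq : c p = c q
  · exfalso
    have : {x | x ∉ L ∧ c x = !c p} = ∅ := by
      ext x
      simp only [Set.mem_ofPred_eq, Set.mem_empty_iff_false, iff_false, not_and]
      intro hx
      rcases (hL x).1 hx with h | h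
      · rw [hc1 x h p hp]; simp
      · rw [hc2 x h q hq, ← hpq]; simp
    have h := hs (!c p)
    rw [this, measure_empty] at h
    exact μ3_univ_ne 0 h.symm
  · refine ⟨c p, ?_⟩
    ext x
    simp only [Set.mem_ofPred_eq]
    constructor
    · rintro ⟨hx, hcx⟩
      rcases (hL x).1 hx with h | h
      · exact h
      · exact absurd (hcx.symm.trans (hc2 x h q hq)) hpq
    · intro hx
      exact ⟨(hL x).2 (Or.inl hx), hc1 x hx p hp⟩

lemma not_line {L : Set Pt} {c : Pt → Bool} {p d : Pt} (hd : d ≠ 0)
    (hL : ∀ x, x ∈ L ↔ cross d x = cross d p)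
    (hc : ∀ S : Set Pt, IsPreconnected S → (∀ x ∈ S, x ∉ L) → ∀ x ∈ S, ∀ y ∈ S, c x = c y)
    (hs : ∀ i b, μ3 i {x | x ∉ L ∧ c x = b} = μ3 i Set.univ / 2) : False := by
  set A : Pt → ℝ := fun x => cross d x with hA
  have hAc : Continuous A := continuous_cross_right d
  have lin : IsLinearMap ℝ A := ⟨fun x y => cross_add_right d x y, fun t x => cross_smul_right d x t⟩
  have cv1 : Convex ℝ {x | A p < A x} := convex_halfSpace_gt lin _
  have cv2 : Convex ℝ {x | A x < A p} := convex_halfSpace_lt lin _
  -- a vector with nonzero value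
  obtain ⟨n, hn⟩ : ∃ n : Pt, A n = d.1 ^ 2 + d.2 ^ 2 := ⟨(-d.2, d.1), by simp only [hA, cross]; ring⟩
  have hn0 : 0 < d.1 ^ 2 + d.2 ^ 2 := by
    rcases lt_or_eq_of_le (by positivity : 0 ≤ d.1 ^ 2 + d.2 ^ 2) with h | h
    · exact h
    · exfalso
      apply hd
      have h1 : d.1 ^ 2 = 0 := by nlinarith [sq_nonneg d.1, sq_nonneg d.2]
      have h2 : d.2 ^ 2 = 0 := by nlinarith [sq_nonneg d.1, sq_nonneg d.2]
      exact Prod.ext (by simpa using h1) (by simpa using h2)
  have surj : ∀ r : ℝ, ∃ x, A x = r := fun r => by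
    refine ⟨(r / (d.1 ^ 2 + d.2 ^ 2)) • n, ?_⟩
    have : A ((r / (d.1 ^ 2 + d.2 ^ 2)) • n) = (r / (d.1 ^ 2 + d.2 ^ 2)) * A n := cross_smul_right d n _
    rw [this, hn]; field_simp
  obtain ⟨x1, hx1⟩ := surj (A p + 1)
  obtain ⟨x2, hx2⟩ := surj (A p - 1)
  obtain ⟨b, hb⟩ := two_regions (L := L) (R1 := {x | A p < A x}) (R2 := {x | A x < A p}) (c := c)
    (hc _ cv1.isPreconnected fun x hx => by
      rw [hL x]; exact (ne_of_gt hx))
    (hc _ cv2.isPreconnected fun x hx => by
      rw [hL x]; exact (ne_of_lt hx))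
    (fun x => by
      rw [hL x]
      constructor
      · intro h
        rcases lt_or_gt_of_ne h with h | h
        · exact Or.inr h
        · exact Or.inl h
      · rintro (h | h)
        · exact ne_of_gt h
        · exact ne_of_lt h)
    ⟨x1, by simp only [Set.mem_ofPred_eq, hx1]; linarith⟩ ⟨x2, by simp only [Set.mem_ofPred_eq, hx2]; linarith⟩ (hs 0)
  have hneg : ∀ x, A (-x) = -A x := fun x => cross_neg_right d x
  have hform : ∀ x : Pt, (-d.2) * x.1 + d.1 * x.2 = A x := fun x => by simp only [hA, cross]; ring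
  have hopen : IsOpen {x | A p < A x} := isOpen_lt continuous_const hAc
  refine no_half (T := {x | A p < A x}) hopen.measurableSet (-d.2) d.1 ?_
    {x | |A p| < A x} (isOpen_lt continuous_const hAc) ?_ ?_ ?_ ?_
  · intro x hx hx'
    rw [hform]
    simp only [Set.mem_ofPred_eq, hneg, not_lt] at hx hx'
    rcases le_or_gt 0 (A p) with h | h <;> linarith
  · obtain ⟨y, hy⟩ := surj (|A p| + 1)
    exact ⟨y, by simp only [Set.mem_ofPred_eq, hy]; linarith⟩
  · intro x hx
    simp only [Set.mem_ofPred_eq] at hx ⊢
    exact lt_of_le_of_lt (le_abs_self _) hx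
  · intro x hx
    simp only [Set.mem_ofPred_eq, hneg, not_lt] at hx ⊢
    have := neg_abs_le (A p)
    linarith
  · intro i
    rw [← hb]
    exact hs i b

lemma not_wedge {L : Set Pt} {c : Pt → Bool} {a d e : Pt} (hde : 0 < cross d e)
    (hL : ∀ x, x ∈ L ↔ x ∈ ray a d ∨ x ∈ ray a e)
    (hc : ∀ S : Set Pt, IsPreconnected S → (∀ x ∈ S, x ∉ L) → ∀ x ∈ S, ∀ y ∈ S, c x = c y)
    (hs : ∀ i b, μ3 i {x | x ∉ L ∧ c x = b} = μ3 i Set.univ / 2) : False := by
  set A : Pt → ℝ := fun x => cross d x with hA
  set B : Pt → ℝ := fun x => cross x e with hB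
  set D := cross d e with hD
  have hAc : Continuous A := continuous_cross_right d
  have hBc : Continuous B := continuous_cross_left e
  have linA : IsLinearMap ℝ A := ⟨fun x y => cross_add_right d x y, fun t x => cross_smul_right d x t⟩
  have linB : IsLinearMap ℝ B := ⟨fun x y => cross_add_left x y e, fun t x => cross_smul_left x e t⟩
  have hAat : ∀ s t : ℝ, A (a + (s • d + t • e)) = A a + t * D := fun s t => by
    simp only [hA, hD, cross_add_right, cross_smul_right, cross_self]; ring
  have hBat : ∀ s t : ℝ, B (a + (s • d + t • e)) = B a + s * D := fun s t => by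
    simp only [hB, hD, cross_add_left, cross_smul_left, cross_self]; ring
  have decomp : ∀ x : Pt, x = a + (((B x - B a) / D) • d + ((A x - A a) / D) • e) := by
    intro x
    have hD0 : D ≠ 0 := hde.ne'
    apply Prod.ext
    · simp only [Prod.fst_add, Prod.smul_fst, smul_eq_mul]
      field_simp
      simp only [hA, hB, hD, cross]; ring
    · simp only [Prod.snd_add, Prod.smul_snd, smul_eq_mul]
      field_simp
      simp only [hA, hB, hD, cross]; ring
  have hLiff : ∀ x, x ∉ L ↔ (A a < A x ∧ B a < B x) ∨ (A x < A a ∨ B x < B a) := by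
    intro x
    rw [hL x]
    constructor
    · intro h
      by_contra hcon
      push Not at hcon
      obtain ⟨h1, h2, h3⟩ := hcon
      apply h
      rcases eq_or_lt_of_le h2 with h4 | h4
      · left
        refine ⟨(B x - B a) / D, div_nonneg (by linarith) hde.le, ?_⟩
        conv_lhs => rw [decomp x]
        rw [← h4]; simp
      · right
        have h5 : B x = B a := le_antisymm (h1 h4) h3
        refine ⟨(A x - A a) / D, div_nonneg (by linarith) hde.le, ?_⟩
        conv_lhs => rw [decomp x]
        rw [h5]; simp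
    · intro h h'
      rcases h' with ⟨t, ht, rfl⟩ | ⟨t, ht, rfl⟩
      · have e1 : A (a + t • d) = A a := by
          simp only [hA, cross_add_right, cross_smul_right, cross_self]; ring
        have e2 : B (a + t • d) = B a + t * D := by
          simp only [hB, hD, cross_add_left, cross_smul_left]
        rw [e1, e2] at h
        have : 0 ≤ t * D := mul_nonneg ht hde.le
        rcases h with ⟨h, -⟩ | h | h <;> linarith
      · have e1 : A (a + t • e) = A a + t * D := by
          simp only [hA, hD, cross_add_right, cross_smul_right]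
        have e2 : B (a + t • e) = B a := by
          simp only [hB, cross_add_left, cross_smul_left, cross_self]; ring
        rw [e1, e2] at h
        have : 0 ≤ t * D := mul_nonneg ht hde.le
        rcases h with ⟨-, h⟩ | h | h <;> linarith
  have cvW : Convex ℝ {x | A a < A x ∧ B a < B x} :=
    (convex_halfSpace_gt linA _).inter (convex_halfSpace_gt linB _)
  have pV : IsPreconnected {x | A x < A a ∨ B x < B a} := by
    refine IsPreconnected.union (a + ((-1 : ℝ) • d + (-1 : ℝ) • e)) ?_ ?_
      (convex_halfSpace_lt linA (A a)).isPreconnected (convex_halfSpace_lt linB (B a)).isPreconnected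
    · show A (a + ((-1 : ℝ) • d + (-1 : ℝ) • e)) < A a
      rw [hAat]; linarith
    · show B (a + ((-1 : ℝ) • d + (-1 : ℝ) • e)) < B a
      rw [hBat]; linarith
  obtain ⟨b, hb⟩ := two_regions (L := L) (R1 := {x | A a < A x ∧ B a < B x})
    (R2 := {x | A x < A a ∨ B x < B a}) (c := c)
    (hc _ cvW.isPreconnected fun x hx => (hLiff x).2 (Or.inl hx))
    (hc _ pV fun x hx => (hLiff x).2 (Or.inr hx)) hLiff
    ⟨a + ((1 : ℝ) • d + (1 : ℝ) • e), by
      simp only [Set.mem_ofPred_eq, hAat, hBat]; constructor <;> linarith⟩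
    ⟨a + ((-1 : ℝ) • d + (-1 : ℝ) • e), by
      simp only [Set.mem_ofPred_eq, hAat, hBat]; left; linarith⟩ (hs 0)
  have hnA : ∀ x, A (-x) = -A x := fun x => cross_neg_right d x
  have hnB : ∀ x, B (-x) = -B x := fun x => cross_neg_left x e
  have fA : ∀ x : Pt, (-d.2) * x.1 + d.1 * x.2 = A x := fun x => by simp only [hA, cross]; ring
  have fB : ∀ x : Pt, e.2 * x.1 + (-e.1) * x.2 = B x := fun x => by simp only [hB, cross]; ring
  have hopen : IsOpen {x | A a < A x ∧ B a < B x} :=
    (isOpen_lt continuous_const hAc).inter (isOpen_lt continuous_const hBc)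
  have hsT : ∀ i, μ3 i {x | A a < A x ∧ B a < B x} = μ3 i Set.univ / 2 := fun i => by
    rw [← hb]; exact hs i b
  have point : ∀ M : ℝ, 0 < M → ∃ x, A a + M ≤ A x ∧ B a + M ≤ B x := fun M hM => by
    refine ⟨a + ((M / D) • d + (M / D) • e), ?_, ?_⟩
    · rw [hAat]; rw [div_mul_cancel₀ _ hde.ne']
    · rw [hBat]; rw [div_mul_cancel₀ _ hde.ne']
  rcases le_or_gt 0 (A a) with hp | hp
  · refine no_half hopen.measurableSet (-d.2) d.1 ?_ _ hopen ?_ subset_rfl ?_ hsT
    · intro x hx _
      rw [fA]; exact lt_of_le_of_lt hp hx.1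
    · obtain ⟨x, h1, h2⟩ := point 1 one_pos
      exact ⟨x, by constructor <;> linarith⟩
    · rintro x hx ⟨h1, h2⟩
      rw [hnA] at h1
      have := hx.1
      linarith
  rcases le_or_gt 0 (B a) with hq | hq
  · refine no_half hopen.measurableSet e.2 (-e.1) ?_ _ hopen ?_ subset_rfl ?_ hsT
    · intro x hx _
      rw [fB]; exact lt_of_le_of_lt hq hx.2
    · obtain ⟨x, h1, h2⟩ := point 1 one_pos
      exact ⟨x, by constructor <;> linarith⟩
    · rintro x hx ⟨h1, h2⟩
      rw [hnB] at h2
      have := hx.2
      linarith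
  · set p := -A a with hpd
    set q := -B a with hqd
    have hp0 : 0 < p := by linarith
    have hq0 : 0 < q := by linarith
    refine no_half hopen.measurableSet ((-d.2) / p + e.2 / q) (d.1 / p + (-e.1) / q) ?_
      {x | p < A x ∧ B a < B x}
      ((isOpen_lt continuous_const hAc).inter (isOpen_lt continuous_const hBc)) ?_ ?_ ?_ hsT
    · intro x hx hx'
      have e1 : ((-d.2) / p + e.2 / q) * x.1 + (d.1 / p + (-e.1) / q) * x.2 = A x / p + B x / q := by
        rw [← fA, ← fB]; ring
      rw [e1]
      obtain ⟨h1, h2⟩ := hx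
      have h3 : p ≤ A x ∨ q ≤ B x := by
        by_contra hcon
        push Not at hcon
        apply hx'
        simp only [Set.mem_ofPred_eq, hnA, hnB]
        constructor <;> linarith
      have h4 : -1 < A x / p := by rw [lt_div_iff₀ hp0]; linarith
      have h5 : -1 < B x / q := by rw [lt_div_iff₀ hq0]; linarith
      rcases h3 with h3 | h3
      · have : 1 ≤ A x / p := by rw [le_div_iff₀ hp0]; linarith
        linarith
      · have : 1 ≤ B x / q := by rw [le_div_iff₀ hq0]; linarith
        linarith
    · obtain ⟨x, h1, h2⟩ := point (2 * p + 1) (by linarith)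
      exact ⟨x, by constructor <;> linarith⟩
    · intro x hx
      exact ⟨by linarith [hx.1], hx.2⟩
    · rintro x hx ⟨h1, h2⟩
      rw [hnA] at h1
      have := hx.1
      linarith

lemma not_ray {L : Set Pt} {c : Pt → Bool} {a d : Pt} (hd : d ≠ 0)
    (hL : ∀ x, x ∈ L ↔ x ∈ ray a d)
    (hc : ∀ S : Set Pt, IsPreconnected S → (∀ x ∈ S, x ∉ L) → ∀ x ∈ S, ∀ y ∈ S, c x = c y)
    (hs : ∀ i b, μ3 i {x | x ∉ L ∧ c x = b} = μ3 i Set.univ / 2) : False := by
  set A : Pt → ℝ := fun x => cross d x with hA
  set B : Pt → ℝ := fun x => d.1 * x.1 + d.2 * x.2 with hB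
  have hn0 : 0 < d.1 ^ 2 + d.2 ^ 2 := by
    rcases lt_or_eq_of_le (by positivity : 0 ≤ d.1 ^ 2 + d.2 ^ 2) with h | h
    · exact h
    · exfalso
      apply hd
      have h1 : d.1 ^ 2 = 0 := by nlinarith [sq_nonneg d.1, sq_nonneg d.2]
      have h2 : d.2 ^ 2 = 0 := by nlinarith [sq_nonneg d.1, sq_nonneg d.2]
      exact Prod.ext (by simpa using h1) (by simpa using h2)
  have linA : IsLinearMap ℝ A := ⟨fun x y => cross_add_right d x y, fun t x => cross_smul_right d x t⟩
  have linB : IsLinearMap ℝ B :=
    ⟨fun x y => by simp only [hB, Prod.fst_add, Prod.snd_add]; ring,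
     fun t x => by simp only [hB, Prod.smul_fst, Prod.smul_snd, smul_eq_mul]; ring⟩
  -- the complement of the ray
  have hmem : ∀ x, x ∉ L ↔ (A a < A x ∨ (A x = A a ∧ B x < B a)) ∨ (A x < A a ∨ (A x = A a ∧ B x < B a)) := by
    intro x
    rw [hL x]
    constructor
    · intro h
      rcases lt_trichotomy (A x) (A a) with h1 | h1 | h1
      · right; left; exact h1
      · left; right
        refine ⟨h1, ?_⟩
        by_contra h2
        push Not at h2
        apply h
        have h3 : cross d (x - a) = 0 := by rw [cross_sub_right]; simp only [hA] at h1; linarith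
        obtain ⟨t, ht⟩ := exists_smul_of_cross hd h3
        refine ⟨t, ?_, by rw [← ht]; abel⟩
        have h4 : x = a + t • d := by rw [← ht]; abel
        have h5 : B x = B a + t * (d.1 ^ 2 + d.2 ^ 2) := by
          rw [h4]; simp only [hB, Prod.fst_add, Prod.snd_add, Prod.smul_fst, Prod.smul_snd, smul_eq_mul]; ring
        rw [h5] at h2
        by_contra ht'
        push Not at ht'
        nlinarith
      · left; left; exact h1
    · rintro h ⟨t, ht, rfl⟩
      have h4 : A (a + t • d) = A a := by simp only [hA, cross_add_right, cross_smul_right, cross_self]; ring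
      have h5 : B (a + t • d) = B a + t * (d.1 ^ 2 + d.2 ^ 2) := by
        simp only [hB, Prod.fst_add, Prod.snd_add, Prod.smul_fst, Prod.smul_snd, smul_eq_mul]; ring
      have h6 : 0 ≤ t * (d.1 ^ 2 + d.2 ^ 2) := mul_nonneg ht hn0.le
      rw [h4, h5] at h
      rcases h with (h | ⟨-, h⟩) | (h | ⟨-, h⟩) <;> linarith
  have cv1 : Convex ℝ {x | A a < A x ∨ (A x = A a ∧ B x < B a)} := by
    intro x hx y hy s t hs0 ht0 hst
    have eA : A (s • x + t • y) = s * A x + t * A y := by rw [linA.map_add, linA.map_smul, linA.map_smul]; rfl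
    have eB : B (s • x + t • y) = s * B x + t * B y := by rw [linB.map_add, linB.map_smul, linB.map_smul]; rfl
    simp only [Set.mem_ofPred_eq, eA, eB]
    have ht1 : t = 1 - s := by linarith
    subst ht1
    rcases hx with hx | ⟨hx, hx'⟩ <;> rcases hy with hy | ⟨hy, hy'⟩
    · left
      rcases eq_or_lt_of_le hs0 with h | h
      · rw [← h]; simpa using hy
      · nlinarith
    · rcases eq_or_lt_of_le hs0 with h | h
      · right; rw [← h]; simpa using ⟨hy, hy'⟩
      · left; rw [hy]; nlinarith
    · rcases eq_or_lt_of_le ht0 with h | h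
      · right
        have : s = 1 := by linarith
        rw [this]; simpa using ⟨hx, hx'⟩
      · left; rw [hx]; nlinarith
    · right
      refine ⟨by rw [hx, hy]; ring, ?_⟩
      rcases eq_or_lt_of_le hs0 with h | h
      · rw [← h]; simpa using hy'
      · nlinarith
  have cv2 : Convex ℝ {x | A x < A a ∨ (A x = A a ∧ B x < B a)} := by
    intro x hx y hy s t hs0 ht0 hst
    have eA : A (s • x + t • y) = s * A x + t * A y := by rw [linA.map_add, linA.map_smul, linA.map_smul]; rfl
    have eB : B (s • x + t • y) = s * B x + t * B y := by rw [linB.map_add, linB.map_smul, linB.map_smul]; rfl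
    simp only [Set.mem_ofPred_eq, eA, eB]
    have ht1 : t = 1 - s := by linarith
    subst ht1
    rcases hx with hx | ⟨hx, hx'⟩ <;> rcases hy with hy | ⟨hy, hy'⟩
    · left
      rcases eq_or_lt_of_le hs0 with h | h
      · rw [← h]; simpa using hy
      · nlinarith
    · rcases eq_or_lt_of_le hs0 with h | h
      · right; rw [← h]; simpa using ⟨hy, hy'⟩
      · left; rw [hy]; nlinarith
    · rcases eq_or_lt_of_le ht0 with h | h
      · right
        have : s = 1 := by linarith
        rw [this]; simpa using ⟨hx, hx'⟩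
      · left; rw [hx]; nlinarith
    · right
      refine ⟨by rw [hx, hy]; ring, ?_⟩
      rcases eq_or_lt_of_le hs0 with h | h
      · rw [← h]; simpa using hy'
      · nlinarith
  have hz : A (a - d) = A a ∧ B (a - d) < B a := by
    constructor
    · simp only [hA, cross_sub_right, cross_self]; ring
    · have : B (a - d) = B a - (d.1 ^ 2 + d.2 ^ 2) := by
        simp only [hB, Prod.fst_sub, Prod.snd_sub]; ring
      rw [this]; linarith
  have pc : IsPreconnected ({x | A a < A x ∨ (A x = A a ∧ B x < B a)} ∪ {x | A x < A a ∨ (A x = A a ∧ B x < B a)}) :=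
    IsPreconnected.union (a - d) (Or.inr hz) (Or.inr hz) cv1.isPreconnected cv2.isPreconnected
  have hconst := hc _ pc fun x hx => (hmem x).2 hx
  have : {x | x ∉ L ∧ c x = !c (a - d)} = ∅ := by
    ext x
    simp only [Set.mem_ofPred_eq, Set.mem_empty_iff_false, iff_false, not_and]
    intro hx
    rw [hconst x ((hmem x).1 hx) (a - d) (Or.inl (Or.inr hz))]
    simp
  have h := hs 0 (!c (a - d))
  rw [this, measure_empty] at h
  exact μ3_univ_ne 0 h.symm

/-- no path with at most one turn splits the three measures -/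
theorem not_one_turn {k : ℕ} (hk : k ≤ 1) {v : ℕ → Pt} {d e : Pt} (hd : d ≠ 0) (he : e ≠ 0)
    {c : Pt → Bool} (hc : IsColouring k v d e c)
    (hs : ∀ i, SplitsByHalf (path k v d e) c (μ3 i)) : False := by
  have hconst := hc.const
  have hs' : ∀ i b, μ3 i {x | x ∉ path k v d e ∧ c x = b} = μ3 i Set.univ / 2 := fun i b => hs i b
  interval_cases k
  · refine not_line (L := path 0 v d e) (p := v 0) hd ?_ (fun S h1 h2 => hconst S h1 h2) hs'
    intro x
    simp only [path, Set.mem_ofPred_eq, Nat.le_zero, piece, if_true, line]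
    constructor
    · rintro ⟨i, -, t, rfl⟩
      rw [cross_add_right, cross_smul_right, cross_self]; ring
    · intro h
      have h3 : cross d (x - v 0) = 0 := by rw [cross_sub_right]; linarith
      obtain ⟨t, ht⟩ := exists_smul_of_cross hd h3
      exact ⟨0, rfl, t, by rw [← ht]; abel⟩
  · have hmem : ∀ x, x ∈ path 1 v d e ↔ x ∈ ray (v 1) d ∨ x ∈ ray (v 1) e := by
      intro x
      simp only [path, Set.mem_ofPred_eq, piece, one_ne_zero, if_false]
      constructor
      · rintro ⟨i, hi, h⟩
        interval_cases i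
        · left; simpa using h
        · right; simpa using h
      · rintro (h | h)
        · exact ⟨0, by norm_num, by simpa using h⟩
        · exact ⟨1, le_rfl, by simpa using h⟩
    rcases lt_trichotomy (cross d e) 0 with h | h | h
    · refine not_wedge (L := path 1 v d e) (a := v 1) (d := e) (e := d) (by rw [cross_comm]; linarith) ?_
        (fun S h1 h2 => hconst S h1 h2) hs'
      intro x; rw [hmem x]; exact or_comm
    · obtain ⟨t, ht⟩ := exists_smul_of_cross hd h
      have ht0 : t ≠ 0 := by rintro rfl; simp at ht; exact he ht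
      rcases lt_or_gt_of_ne ht0 with h1 | h1
      · refine not_line (L := path 1 v d e) (p := v 1) hd ?_ (fun S h1 h2 => hconst S h1 h2) hs'
        intro x
        rw [hmem x]
        constructor
        · rintro (⟨s, -, rfl⟩ | ⟨s, -, rfl⟩)
          · rw [cross_add_right, cross_smul_right, cross_self]; ring
          · rw [ht, cross_add_right, cross_smul_right, cross_smul_right, cross_self]; ring
        · intro hx
          have h3 : cross d (x - v 1) = 0 := by rw [cross_sub_right]; linarith
          obtain ⟨s, hs1⟩ := exists_smul_of_cross hd h3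
          have hx' : x = v 1 + s • d := by rw [← hs1]; abel
          rcases le_or_gt 0 s with h4 | h4
          · left; exact ⟨s, h4, hx'⟩
          · right
            refine ⟨s / t, (div_pos_of_neg_of_neg h4 h1).le, ?_⟩
            rw [ht, smul_smul, div_mul_cancel₀ _ ht0]; exact hx'
      · refine not_ray (L := path 1 v d e) (a := v 1) hd ?_ (fun S h1 h2 => hconst S h1 h2) hs'
        intro x
        rw [hmem x]
        constructor
        · rintro (h4 | ⟨s, hs0, rfl⟩)
          · exact h4
          · exact ⟨s * t, mul_nonneg hs0 h1.le, by rw [ht, smul_smul]⟩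
        · intro h4; left; exact h4
    · exact not_wedge (L := path 1 v d e) (a := v 1) h hmem (fun S h1 h2 => hconst S h1 h2) hs'

theorem upper_one {m : ℕ} (h : AlwaysSplit 1 m) : m ≤ 2 := by
  by_contra hm
  push Not at hm
  have hm3 : 3 ≤ m := hm
  obtain ⟨k, hk, v, d, e, hd, he, c, hc, hs⟩ := h
    (fun i => if hi : (i : ℕ) < 3 then μ3 ⟨i, hi⟩ else 0)
    (fun i => by
      by_cases hi : (i : ℕ) < 3
      · simp only [hi, dif_pos]; infer_instance
      · simp only [hi, dif_neg, not_false_eq_true]; infer_instance)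
    (fun i => by
      by_cases hi : (i : ℕ) < 3
      · simp only [hi, dif_pos]; exact μ3_ac _
      · simp only [hi, dif_neg, not_false_eq_true]; exact Measure.AbsolutelyContinuous.zero _)
  refine not_one_turn hk hd he hc fun i => ?_
  have := hs ⟨i, lt_of_lt_of_le i.2 hm3⟩
  simpa using this

end MPde2e60
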